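import Mathlib

/-!
# Trees with an infinite branch do not form a Borel set

`Good p` says that there is `y : ℕ → ℕ` such that `p` takes the value `true` at every nonempty
initial segment of `y` (initial segments are written as reversed lists, `PiNat.res y k`).
The set of `p : List ℕ → Bool` with `Good p` is not Borel, by a diagonal argument.
-/

namespace MP3166b2

open Set Function PiNat MeasureTheory Topology Filter

/-- `p` is `true` along all the nonempty initial segments of some `y : ℕ → ℕ`. -/
def Good (p : List ℕ → Bool) : Prop :=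
  ∃ y : ℕ → ℕ, ∀ k : ℕ, p (res y (k + 1)) = true

theorem polish_listBool : PolishSpace (List ℕ → Bool) := by
  let _ : MetricSpace (List ℕ → Bool) := TopologicalSpace.metrizableSpaceMetric _
  infer_instance

theorem not_borel_good : ¬ MeasurableSet[borel (List ℕ → Bool)] {p | Good p} := by
  classical
  intro hB
  let _ : MeasurableSpace (List ℕ → Bool) := borel _
  have : BorelSpace (List ℕ → Bool) := ⟨rfl⟩
  have : PolishSpace (List ℕ → Bool) := polish_listBool
  have hA : AnalyticSet ({p | Good p}ᶜ) := (MeasurableSet.compl hB).analyticSet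
  have hne : ({p | Good p}ᶜ).Nonempty := by
    refine ⟨fun _ => false, ?_⟩
    rintro ⟨y, hy⟩
    simpa using hy 0
  rw [AnalyticSet] at hA
  rcases hA with hA | ⟨f, hf, hrange⟩
  · exact hne.ne_empty hA
  obtain ⟨P, hP⟩ : ∃ P : List ℕ → Bool, ∀ w, P w = true ↔
      ∃ y : ℕ → ℕ, res y w.length = w ∧ ∀ v : List ℕ, v.length < w.length → f y v = P v := by
    let F : (w : List ℕ) → ((v : List ℕ) → v.length < w.length → Bool) → Bool :=
      fun w ih => decide (∃ y : ℕ → ℕ, res y w.length = w ∧
        ∀ v : List ℕ, ∀ hv : v.length < w.length, f y v = ih v hv)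
    refine ⟨(measure (List.length (α := ℕ))).wf.fix F, fun w => ?_⟩
    rw [WellFounded.fix_eq]
    simp [F]
  have h1 : P ∈ range f → Good P := by
    rintro ⟨y, hy⟩
    refine ⟨y, fun k => ?_⟩
    rw [hP]
    exact ⟨y, by simp, fun v _ => by rw [hy]⟩
  have h2 : Good P → P ∈ range f := by
    rintro ⟨y, hy⟩
    refine ⟨y, ?_⟩
    have hy' : ∀ k : ℕ, ∃ z : ℕ → ℕ, res z (k + 1) = res y (k + 1) ∧
        ∀ v : List ℕ, v.length < k + 1 → f z v = P v := by
      intro k
      have := (hP _).1 (hy k)
      simpa using this
    choose z hz1 hz2 using hy'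
    have hlim : Tendsto z atTop (𝓝 y) := by
      rw [tendsto_pi_nhds]
      intro i
      refine tendsto_const_nhds.congr' ?_
      filter_upwards [eventually_ge_atTop i] with k hk
      exact (res_eq_res.1 (hz1 k) (by omega)).symm
    have hlim2 := (hf.tendsto y).comp hlim
    rw [tendsto_pi_nhds] at hlim2
    funext v
    refine tendsto_nhds_unique (hlim2 v) ?_
    refine tendsto_const_nhds.congr' ?_
    filter_upwards [eventually_ge_atTop v.length] with k hk
    exact (hz2 k v (by omega)).symm
  by_cases hg : Good P
  · have := h2 hg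
    rw [hrange] at this
    exact this hg
  · have : P ∈ range f := by
      rw [hrange]
      exact hg
    exact hg (h1 this)

end MP3166b2
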