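import Pool.Agent.Lib.MP_3166b2_lc.Fwd
import Pool.Agent.Lib.MP_3166b2_lc.NonBorel

/-!
# The selections attached to a tree, and the criterion for conjugacy
-/

namespace MP3166b2

open Set Function Topology Filter PiNat

/-! ### A sufficient condition for conjugacy -/

section
variable {J : Type*}

theorem backward (σ σ' : J → Ty × T) (hty : ∀ j, (σ' j).1 = (σ j).1) (a : SS) (ha0 : a none = 0)
    (hfin : ∀ j, ∀ᶠ k in atTop, chi (idx (σ j).1 k) a = (σ' j).2 - (σ j).2) :
    ∃ h : ZZ J ≃ₜ ZZ J, ∀ z, h (stp σ 1 z) = stp σ' 1 (h z) := by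
  have hK : ∀ j, ∃ K : ℕ, ∀ k, K ≤ k → chi (idx (σ j).1 k) a = (σ' j).2 - (σ j).2 := fun j =>
    eventually_atTop.1 (hfin j)
  choose K hK using hK
  let D : J → ℕ → SS → ℝ := fun j k s =>
    Psi (chi (idx (σ j).1 k) (s + a) - (σ' j).2) - Psi (chi (idx (σ j).1 k) s - (σ j).2)
  have hDcont : ∀ j k, Continuous (D j k) := fun j k =>
    (continuous_Psi.comp (((continuous_chi _).comp (continuous_add_const a)).sub
      continuous_const)).sub (continuous_Psi.comp ((continuous_chi _).sub continuous_const))
  have hD0 : ∀ j k s, K j ≤ k → D j k s = 0 := by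
    intro j k s hk
    simp only [D]
    rw [map_add, hK j k hk]
    have : chi (idx (σ j).1 k) s + ((σ' j).2 - (σ j).2) - (σ' j).2 =
        chi (idx (σ j).1 k) s - (σ j).2 := by abel
    rw [this, sub_self]
  let g : SS → (Option J → T) := fun s i =>
    match i with
    | none => 0
    | some j => ((∑ k ∈ Finset.range (K j), D j k s : ℝ) : T)
  have hgcont : Continuous g := by
    refine continuous_pi fun i => ?_
    match i with
    | none => exact continuous_const
    | some j =>
      exact continuous_coe_T.comp (continuous_finsetSum _ fun k _ => hDcont j k)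
  have hG : ∀ j (s : SS), GG (σ j).1 (σ' j).2 1 (s + a) =
      GG (σ j).1 (σ j).2 1 s + (∑ k ∈ Finset.range (K j), D j k (s + rho)) -
        ∑ k ∈ Finset.range (K j), D j k s := by
    intro j s
    have h1 := (summable_term (σ j).1 (σ' j).2 1 (s + a)).tsum_sub
      (summable_term (σ j).1 (σ j).2 1 s)
    have h2 : ∀ k, term (σ j).1 (σ' j).2 1 (s + a) k - term (σ j).1 (σ j).2 1 s k =
        D j k (s + rho) - D j k s := by
      intro k
      simp only [term, D, one_smul]
      rw [add_right_comm s a rho]
      ring
    have h3 : ∑' k, (term (σ j).1 (σ' j).2 1 (s + a) k - term (σ j).1 (σ j).2 1 s k) =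
        ∑ k ∈ Finset.range (K j), (D j k (s + rho) - D j k s) := by
      rw [tsum_congr h2]
      refine tsum_eq_sum fun k hk => ?_
      rw [Finset.mem_range, not_lt] at hk
      rw [hD0 j k _ hk, hD0 j k _ hk, sub_self]
    rw [h3, Finset.sum_sub_distrib] at h1
    have h4 : GG (σ j).1 (σ' j).2 1 (s + a) - GG (σ j).1 (σ j).2 1 s =
        (∑ k ∈ Finset.range (K j), D j k (s + rho)) - ∑ k ∈ Finset.range (K j), D j k s :=
      h1.symm
    linarith
  have hEE : ∀ s, EE σ' 1 (s + a) = EE σ 1 s + g (s + rho) - g s := by
    intro s
    funext i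
    match i with
    | none =>
      have e : (EE σ 1 s + g (s + rho) - g s) none = EE σ 1 s none + 0 - 0 := rfl
      rw [e, EE_none, EE_none, Pi.add_apply, ha0, add_zero, add_zero, sub_zero]
    | some j =>
      have e : (EE σ 1 s + g (s + rho) - g s) (some j) =
        ((GG (σ j).1 (σ j).2 1 s + (∑ k ∈ Finset.range (K j), D j k (s + rho)) -
          ∑ k ∈ Finset.range (K j), D j k s : ℝ) : T) := rfl
      rw [e, EE_some, hty, hG]
  refine ⟨{ toFun := fun z => (z.1 + a, z.2 + g z.1)
            invFun := fun z => (z.1 - a, z.2 - g (z.1 - a))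
            left_inv := fun z => by simp
            right_inv := fun z => by simp
            continuous_toFun := (continuous_fst.add continuous_const).prodMk
              (continuous_snd.add (hgcont.comp continuous_fst))
            continuous_invFun := (continuous_fst.sub continuous_const).prodMk
              (continuous_snd.sub (hgcont.comp (continuous_fst.sub continuous_const))) },
    fun z => ?_⟩
  change (((stp σ 1 z).1 + a, (stp σ 1 z).2 + g (stp σ 1 z).1) : ZZ J) =
    stp σ' 1 (z.1 + a, z.2 + g z.1)
  unfold stp
  simp only [one_smul, hEE, Prod.mk.injEq]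
  constructor
  · abel
  · abel

end

/-! ### Trees -/

/-- The index set of the fibre coordinates other than the distinguished one. -/
abbrev JJ := Option ((List ℕ × ℕ) ⊕ List ℕ)

/-- The selection attached to a tree `p` and to the offset `v` at the root. -/
def sel (p : List ℕ → Bool) (v : T) : JJ → Ty × T
  | some (.inl (t, n)) => (some (.inl (t, n, p (n :: t))), 0)
  | some (.inr t) => (some (.inr t), 0)
  | none => (none, v)

theorem sel_fst (p : List ℕ → Bool) (v v' : T) (j : JJ) : (sel p v j).1 = (sel p v' j).1 := by
  match j with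
  | some (.inl (t, n)) => rfl
  | some (.inr t) => rfl
  | none => rfl

theorem sel_injective (p : List ℕ → Bool) (v : T) : Injective fun j => (sel p v j).1 := by
  intro j j' h
  match j, j' with
  | some (.inl (t, n)), some (.inl (t', n')) =>
    simp only [sel, Option.some.injEq, Sum.inl.injEq, Prod.mk.injEq] at h ⊢
    exact ⟨h.1, h.2.1⟩
  | some (.inl (t, n)), some (.inr t') => simp [sel] at h
  | some (.inl (t, n)), none => simp [sel] at h
  | some (.inr t), some (.inl (t', n')) => simp [sel] at h
  | some (.inr t), some (.inr t') => simpa [sel] using h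
  | some (.inr t), none => simp [sel] at h
  | none, some (.inl (t', n')) => simp [sel] at h
  | none, some (.inr t') => simp [sel] at h
  | none, none => rfl

/-- A branch gives a conjugacy. -/
theorem conj_of_good {p : List ℕ → Bool} (hp : Good p) (v : T) :
    ∃ h : ZZ JJ ≃ₜ ZZ JJ, ∀ z, h (stp (sel p 0) 1 z) = stp (sel p v) 1 (h z) := by
  classical
  obtain ⟨y, hy⟩ := hp
  let a : SS := fun i =>
    match i with
    | none => 0
    | some (t, n) => if t = res y t.length ∧ n ≤ y t.length then v else 0
  have ha : ∀ t n, a (some (t, n)) = if t = res y t.length ∧ n ≤ y t.length then v else 0 :=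
    fun _ _ => rfl
  refine backward _ _ (fun j => sel_fst _ _ _ _) a rfl ?_
  intro j
  have hchi : ∀ ty k, chi (idx ty k) a = phi ty k a := by
    intro ty k
    rw [chi_apply, phim_idx]
    have : a none = 0 := rfl
    rw [this, smul_zero, add_zero]
  simp only [hchi]
  match j with
  | some (.inl (t, n)) =>
    refine Eventually.of_forall fun k => ?_
    change phi (some (.inl (t, n, p (n :: t)))) k a = 0 - 0
    rw [phi_R, sub_zero, ha, ha, ha]
    by_cases ht : t = res y t.length
    · have hlen : (n :: t).length = t.length + 1 := rfl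
      rcases lt_trichotomy n (y t.length) with hn | hn | hn
      · have h1 : ¬ (n :: t = res y (n :: t).length ∧ 0 ≤ y (n :: t).length) := by
          rintro ⟨h1, -⟩
          rw [hlen, res_succ, List.cons.injEq] at h1
          omega
        rw [if_pos ⟨ht, hn.le⟩, if_pos ⟨ht, hn⟩, if_neg h1]
        simp
      · have h1 : n :: t = res y (n :: t).length ∧ 0 ≤ y (n :: t).length := by
          refine ⟨?_, Nat.zero_le _⟩
          rw [hlen, res_succ, ← ht, hn]
        have h2 : p (n :: t) = true := by
          rw [h1.1]
          exact hy _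
        rw [if_pos ⟨ht, hn.le⟩, if_neg (by omega), if_pos h1, h2]
        simp
      · have h1 : ¬ (n :: t = res y (n :: t).length ∧ 0 ≤ y (n :: t).length) := by
          rintro ⟨h1, -⟩
          rw [hlen, res_succ, List.cons.injEq] at h1
          omega
        rw [if_neg (by omega), if_neg (by omega), if_neg h1]
        simp
    · have h1 : ¬ (n :: t = res y (n :: t).length ∧ 0 ≤ y (n :: t).length) := by
        rintro ⟨h1, -⟩
        have hlen : (n :: t).length = t.length + 1 := rfl
        rw [hlen, res_succ, List.cons.injEq] at h1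
        exact ht h1.2
      rw [if_neg (fun h => ht h.1), if_neg (fun h => ht h.1), if_neg h1]
      simp
  | some (.inr t) =>
    filter_upwards [eventually_gt_atTop (y t.length)] with k hk
    change phi (some (.inr t)) k a = 0 - 0
    rw [phi_E, ha, if_neg (by omega), sub_zero]
  | none =>
    refine Eventually.of_forall fun k => ?_
    change phi none k a = v - 0
    rw [phi_root, ha, if_pos ⟨rfl, Nat.zero_le _⟩, sub_zero]

/-- A conjugacy gives a branch. -/
theorem good_of_conj {p : List ℕ → Bool} {v : T} (hv : v ≠ 0) (h : ZZ JJ → ZZ JJ)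
    (hc : Continuous h) (hconj : ∀ z, h (stp (sel p 0) 1 z) = stp (sel p v) 1 (h z)) :
    Good p := by
  classical
  obtain ⟨a, γ, hlim⟩ := forward (sel p 0) (sel p v) (sel_injective p 0)
    (fun j => sel_fst _ _ _ _) h hc hconj
  let X : List ℕ → ℕ → T := fun t n => a (some (t, n)) - γ (rho (some (t, n)))
  have hroot : X [] 0 = v := by
    have h1 := hlim none
    have h2 : Tendsto (fun k : ℕ => phi none k a - γ (phi none k rho)) atTop (𝓝 (v - 0)) := h1
    simp only [phi_root, sub_zero] at h2
    exact tendsto_nhds_unique tendsto_const_nhds h2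
  have hE : ∀ t, Tendsto (X t) atTop (𝓝 0) := by
    intro t
    have h1 := hlim (some (.inr t))
    have h2 : Tendsto (fun k : ℕ => phi (some (.inr t)) k a - γ (phi (some (.inr t)) k rho))
      atTop (𝓝 (0 - 0)) := h1
    simp only [phi_E, sub_zero] at h2
    exact h2
  have hR : ∀ t n, X t n - X t (n + 1) - (if p (n :: t) then X (n :: t) 0 else 0) = 0 := by
    intro t n
    have h1 := hlim (some (.inl (t, n)))
    have h2 : Tendsto (fun k : ℕ => phi (some (.inl (t, n, p (n :: t)))) k a -
      γ (phi (some (.inl (t, n, p (n :: t)))) k rho)) atTop (𝓝 (0 - 0)) := h1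
    simp only [phi_R, sub_zero] at h2
    have h3 := tendsto_nhds_unique tendsto_const_nhds h2
    refine Eq.trans ?_ h3
    simp only [X]
    by_cases hpt : p (n :: t) = true
    · simp only [hpt, if_true, map_sub]
      abel
    · simp only [hpt, if_false, map_sub, Bool.false_eq_true, map_zero]
      abel
  have hnext : ∀ t : List ℕ, ∃ n : ℕ, X t 0 ≠ 0 → (p (n :: t) = true ∧ X (n :: t) 0 ≠ 0) := by
    intro t
    by_cases h0 : X t 0 = 0
    · exact ⟨0, fun h => absurd h0 h⟩
    · by_contra hcon
      push Not at hcon
      have h1 : ∀ n, X t n = X t (n + 1) := by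
        intro n
        have h2 := hR t n
        by_cases hpt : p (n :: t) = true
        · rw [if_pos hpt, (hcon n).2 hpt, sub_zero] at h2
          exact sub_eq_zero.1 h2
        · rw [if_neg hpt, sub_zero] at h2
          exact sub_eq_zero.1 h2
      have h3 : ∀ n, X t n = X t 0 := by
        intro n
        induction n with
        | zero => rfl
        | succ n ih => rw [← h1 n, ih]
      have h4 : Tendsto (X t) atTop (𝓝 (X t 0)) := by
        have : X t = fun _ => X t 0 := funext h3
        rw [this]
        exact tendsto_const_nhds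
      exact h0 (tendsto_nhds_unique h4 (hE t))
  choose f hf using hnext
  let tt : ℕ → List ℕ := fun k => Nat.rec [] (fun _ t => f t :: t) k
  have htt : ∀ k, tt (k + 1) = f (tt k) :: tt k := fun _ => rfl
  let y : ℕ → ℕ := fun k => f (tt k)
  have hres : ∀ k, res y k = tt k := by
    intro k
    induction k with
    | zero => rfl
    | succ k ih => rw [res_succ, htt, ih]
  have hne : ∀ k, X (tt k) 0 ≠ 0 := by
    intro k
    induction k with
    | zero =>
      have : tt 0 = [] := rfl
      rw [this, hroot]
      exact hv
    | succ k ih => rw [htt]; exact (hf _ ih).2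
  refine ⟨y, fun k => ?_⟩
  rw [hres, htt]
  exact (hf _ (hne k)).1

end MP3166b2
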