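import Pool.Agent.Lib.MP_3166b2_lc.Rot

/-!
# The choice of the multiplicities and of the return times
-/

namespace MP3166b2

open Set Function Topology Filter

/-- Construction of a sequence by strong recursion. -/
theorem exists_strong_rec {α : Type*} [Inhabited α] (P : ℕ → (ℕ → α) → α → Prop)
    (hP : ∀ m g, ∃ a, P m g a)
    (hcongr : ∀ m g g' a, (∀ l < m, g l = g' l) → P m g a → P m g' a) :
    ∃ f : ℕ → α, ∀ m, P m f (f m) := by
  choose F hF using hP
  obtain ⟨f, hf⟩ : ∃ f : ℕ → α, ∀ m, f m = F m (fun l => if l < m then f l else default) := by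
    let G : (m : ℕ) → ((l : ℕ) → l < m → α) → α :=
      fun m ih => F m (fun l => if h : l < m then ih l h else default)
    refine ⟨(measure (id : ℕ → ℕ)).wf.fix G, fun m => ?_⟩
    rw [WellFounded.fix_eq]
    simp only [G]
    congr 1
  refine ⟨f, fun m => ?_⟩
  have := hF m (fun l => if l < m then f l else default)
  rw [← hf m] at this
  refine hcongr m _ _ _ ?_ this
  intro l hl
  simp [hl]

variable {κ : Type*} [Countable κ]

theorem exists_choice [DecidableEq κ] (φ : ℕ → ((Option κ → T) →+ T))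
    (hφ : ∀ m, Continuous (φ m))
    (hφ0 : ∀ m u, φ m (Pi.single none u) = 0)
    (ρ : Option κ → T) (hρ : FwdDense ρ) :
    ∃ M N : ℕ → ℕ,
      (∀ m, 1 ≤ N m) ∧
      (∀ m, ‖φ m ρ + M m • ρ none‖ ≤ (1 / 2) ^ m) ∧
      (∀ l m, l ≠ m → ‖φ l (N m • ρ) + M l • (N m • ρ) none‖ ≤ (1 / 2) ^ m * (1 / 2) ^ l) ∧
      (∀ m, ‖φ m (N m • ρ) + M m • (N m • ρ) none - ((1 / 4 : ℝ) : T)‖ ≤ (1 / 2) ^ m) ∧
      Tendsto (fun m => N m • ρ) atTop (𝓝 0) ∧
      Tendsto (fun m => M m • ρ + Pi.single none (φ m ρ)) atTop (𝓝 0) := by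
  obtain ⟨W, hW⟩ := (𝓝 (0 : Option κ → T)).exists_antitone_basis
  have hWmem : ∀ m, W m ∈ 𝓝 (0 : Option κ → T) := fun m => hW.mem m
  let P : ℕ → (ℕ → ℕ × ℕ) → ℕ × ℕ → Prop := fun m g p =>
    1 ≤ p.2 ∧ 1 ≤ p.1 ∧ 4 ^ m * (1 + ∑ l ∈ Finset.range m, (g l).1) ≤ p.1 ∧
    ‖φ m ρ + p.1 • ρ none‖ * (1 + ∑ l ∈ Finset.range m, ((g l).2 : ℝ)) < (1 / 4) ^ m ∧
    (p.1 • ρ + Pi.single none (φ m ρ)) ∈ W m ∧
    (p.2 • ρ - Pi.single none ((1 / (4 * p.1) : ℝ) : T)) ∈ W m ∧
    ‖φ m (p.2 • ρ) + p.1 • (p.2 • ρ) none - ((1 / 4 : ℝ) : T)‖ < (1 / 2) ^ m ∧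
    ∀ l < m, ‖φ l (p.2 • ρ) + (g l).1 • (p.2 • ρ) none‖ < (1 / 2) ^ m * (1 / 2) ^ l
  obtain ⟨f, hf⟩ : ∃ f : ℕ → ℕ × ℕ, ∀ m, P m f (f m) := by
    refine exists_strong_rec P ?_ ?_
    · intro m g
      set A := ∑ l ∈ Finset.range m, (g l).1 with hA
      set C := ∑ l ∈ Finset.range m, ((g l).2 : ℝ) with hC
      have hC0 : 0 ≤ C := Finset.sum_nonneg fun _ _ => by positivity
      -- choice of `M`
      obtain ⟨M, hM1, hM2⟩ : ∃ M : ℕ, 4 ^ m * (1 + A) ≤ M ∧
          M • ρ ∈ {x : Option κ → T | x + Pi.single none (φ m ρ) ∈ interior (W m) ∧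
            ‖φ m ρ + x none‖ * (1 + C) < (1 / 4) ^ m} := by
        refine hρ.exists_ge _ ?_ ?_
        · refine IsOpen.inter ?_ ?_
          · exact isOpen_interior.preimage (continuous_id.add continuous_const)
          · refine isOpen_lt (f := fun x : Option κ → T => ‖φ m ρ + x none‖ * (1 + C)) ?_
              continuous_const
            have : Continuous fun x : Option κ → T => x none := continuous_apply none
            exact ((continuous_const.add this).norm).mul continuous_const
        · refine ⟨-Pi.single none (φ m ρ), ?_, ?_⟩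
          · rw [neg_add_cancel]
            exact mem_interior_iff_mem_nhds.2 (hWmem m)
          · simp
      have hM0 : 1 ≤ M := by
        refine le_trans ?_ hM1
        have : 0 < 4 ^ m * (1 + A) := by positivity
        omega
      have hMpos : (0 : ℝ) < M := by exact_mod_cast hM0
      -- choice of `N`
      obtain ⟨N, hN1, hN2⟩ : ∃ N : ℕ, 1 ≤ N ∧
          N • ρ ∈ {x : Option κ → T | x - Pi.single none ((1 / (4 * M) : ℝ) : T) ∈ interior (W m)} ∩
            ({x : Option κ → T | ‖φ m x + M • x none - ((1 / 4 : ℝ) : T)‖ < (1 / 2) ^ m} ∩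
            ⋂ l ∈ Finset.range m, {x : Option κ → T |
              ‖φ l x + (g l).1 • x none‖ < (1 / 2) ^ m * (1 / 2) ^ l}) := by
        refine hρ.exists_ge _ ?_ ?_
        · refine IsOpen.inter ?_ (IsOpen.inter ?_ ?_)
          · exact isOpen_interior.preimage (continuous_sub_right _)
          · refine isOpen_lt ?_ continuous_const
            exact (((hφ m).add ((continuous_nsmul M).comp (continuous_apply none))).sub
              continuous_const).norm
          · refine isOpen_biInter_finset fun l _ => ?_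
            refine isOpen_lt ?_ continuous_const
            exact ((hφ l).add ((continuous_nsmul _).comp (continuous_apply none))).norm
        · refine ⟨Pi.single none ((1 / (4 * M) : ℝ) : T), ?_, ?_, ?_⟩
          · simp only [mem_ofPred_eq, sub_self]
            exact mem_interior_iff_mem_nhds.2 (hWmem m)
          · simp only [mem_ofPred_eq, hφ0, Pi.single_eq_same, zero_add]
            rw [← AddCircle.coe_nsmul, nsmul_eq_mul]
            have : (M : ℝ) * (1 / (4 * M)) = 1 / 4 := by field_simp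
            rw [this, sub_self, norm_zero]
            positivity
          · simp only [mem_iInter, mem_ofPred_eq, hφ0, Pi.single_eq_same, zero_add]
            intro l hl
            rw [Finset.mem_range] at hl
            rw [← AddCircle.coe_nsmul, nsmul_eq_mul]
            refine (norm_coe_le _).trans_lt ?_
            have h1 : (g l).1 ≤ A := Finset.single_le_sum (f := fun l => (g l).1)
              (fun _ _ => Nat.zero_le _) (Finset.mem_range.2 hl)
            have h2 : (4 : ℝ) ^ m * (g l).1 ≤ M := by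
              have : 4 ^ m * (g l).1 ≤ M := le_trans (Nat.mul_le_mul_left _ (by omega)) hM1
              exact_mod_cast this
            rw [abs_of_nonneg (by positivity)]
            have h3 : ((g l).1 : ℝ) * (1 / (4 * M)) ≤ (1 / 4) ^ m * (1 / 4) := by
              rw [one_div_pow]
              rw [mul_one_div, div_le_iff₀ (by positivity)]
              have h4 : (0 : ℝ) < 4 ^ m := by positivity
              have : 1 / (4 : ℝ) ^ m * (1 / 4) * (4 * M) = M / 4 ^ m := by field_simp
              rw [this, le_div_iff₀ h4]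
              linarith
            refine h3.trans_lt ?_
            have h5 : ((1 : ℝ) / 4) ^ m = (1 / 2) ^ m * (1 / 2) ^ m := by
              rw [← mul_pow]; norm_num
            have h6 : ((1 : ℝ) / 2) ^ m ≤ (1 / 2) ^ l :=
              pow_le_pow_of_le_one (by norm_num) (by norm_num) hl.le
            have h7 : (0 : ℝ) < (1 / 2) ^ m := by positivity
            rw [h5]
            nlinarith [mul_pos h7 h7, mul_le_mul_of_nonneg_left h6 h7.le]
      refine ⟨(M, N), hN1, hM0, hM1, hM2.2, interior_subset hM2.1, interior_subset hN2.1,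
        hN2.2.1, ?_⟩
      intro l hl
      have := mem_iInter₂.1 hN2.2.2 l (Finset.mem_range.2 hl)
      exact this
    · intro m g g' a hgg' hPa
      have e1 : ∑ l ∈ Finset.range m, (g l).1 = ∑ l ∈ Finset.range m, (g' l).1 :=
        Finset.sum_congr rfl fun l hl => by rw [hgg' l (Finset.mem_range.1 hl)]
      have e2 : ∑ l ∈ Finset.range m, ((g l).2 : ℝ) = ∑ l ∈ Finset.range m, ((g' l).2 : ℝ) :=
        Finset.sum_congr rfl fun l hl => by rw [hgg' l (Finset.mem_range.1 hl)]
      obtain ⟨h1, h2, h3, h4, h5, h6, h7, h8⟩ := hPa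
      refine ⟨h1, h2, e1 ▸ h3, e2 ▸ h4, h5, h6, h7, fun l hl => ?_⟩
      rw [← hgg' l hl]
      exact h8 l hl
  have hquarter : ∀ m : ℕ, ((1 : ℝ) / 4) ^ m = (1 / 2) ^ m * (1 / 2) ^ m := by
    intro m
    rw [← mul_pow]; norm_num
  refine ⟨fun m => (f m).1, fun m => (f m).2, fun m => (hf m).1, ?_, ?_, ?_, ?_, ?_⟩
  · intro m
    obtain ⟨h1, h2, h3, h4, h5, h6, h7, h8⟩ := hf m
    have hC0 : (0 : ℝ) ≤ ∑ l ∈ Finset.range m, ((f l).2 : ℝ) :=
      Finset.sum_nonneg fun _ _ => by positivity
    have h9 : ‖φ m ρ + (f m).1 • ρ none‖ ≤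
        ‖φ m ρ + (f m).1 • ρ none‖ * (1 + ∑ l ∈ Finset.range m, ((f l).2 : ℝ)) := by
      nlinarith [norm_nonneg (φ m ρ + (f m).1 • ρ none)]
    refine h9.trans (h4.le.trans ?_)
    exact pow_le_pow_left₀ (by norm_num) (by norm_num) m
  · intro l m hlm
    rcases lt_or_gt_of_ne hlm with hlt | hgt
    · exact ((hf m).2.2.2.2.2.2.2 l hlt).le
    · -- `m < l`
      obtain ⟨h1, h2, h3, h4, h5, h6, h7, h8⟩ := hf l
      have e : φ l ((f m).2 • ρ) + (f l).1 • ((f m).2 • ρ) none =
          (f m).2 • (φ l ρ + (f l).1 • ρ none) := by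
        rw [map_nsmul, Pi.smul_apply, smul_add, smul_comm]
      rw [e]
      refine (norm_nsmul_le).trans ?_
      have h9 : ((f m).2 : ℝ) ≤ 1 + ∑ l' ∈ Finset.range l, ((f l').2 : ℝ) := by
        have : ((f m).2 : ℝ) ≤ ∑ l' ∈ Finset.range l, ((f l').2 : ℝ) :=
          Finset.single_le_sum (f := fun l' => ((f l').2 : ℝ))
            (fun _ _ => by positivity) (Finset.mem_range.2 hgt)
        linarith
      have h10 : ((f m).2 : ℝ) * ‖φ l ρ + (f l).1 • ρ none‖ ≤ (1 / 4) ^ l := by
        refine le_trans ?_ h4.le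
        rw [mul_comm]
        exact mul_le_mul_of_nonneg_left h9 (norm_nonneg _)
      refine h10.trans ?_
      rw [hquarter]
      have h6 : ((1 : ℝ) / 2) ^ l ≤ (1 / 2) ^ m :=
        pow_le_pow_of_le_one (by norm_num) (by norm_num) hgt.le
      exact mul_le_mul_of_nonneg_right h6 (by positivity)
  · intro m
    exact (hf m).2.2.2.2.2.2.1.le
  · have t1 : Tendsto (fun m => (f m).2 • ρ - Pi.single none ((1 / (4 * (f m).1) : ℝ) : T))
        atTop (𝓝 0) := hW.tendsto fun m => (hf m).2.2.2.2.2.1
    have t2 : Tendsto (fun m => (Pi.single none ((1 / (4 * (f m).1) : ℝ) : T) : Option κ → T))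
        atTop (𝓝 0) := by
      have c1 : Continuous fun u : T => (Pi.single none u : Option κ → T) :=
        continuous_single (A := fun _ : Option κ => T) none
      have t3 : Tendsto (fun m => ((1 / (4 * (f m).1) : ℝ) : T)) atTop (𝓝 0) := by
        rw [tendsto_zero_iff_norm_tendsto_zero]
        refine squeeze_zero (fun _ => norm_nonneg _) (fun m => (norm_coe_le _).trans ?_)
          (tendsto_pow_atTop_nhds_zero_of_lt_one (r := (1 / 4 : ℝ)) (by norm_num) (by norm_num))
        have h3 : 4 ^ m ≤ (f m).1 := by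
          refine le_trans ?_ (hf m).2.2.1
          exact Nat.le_mul_of_pos_right _ (by omega)
        have h4 : (4 : ℝ) ^ m ≤ (f m).1 := by exact_mod_cast h3
        have h5 : (0 : ℝ) < 4 ^ m := by positivity
        rw [abs_of_nonneg (by positivity), one_div_pow]
        refine one_div_le_one_div_of_le h5 ?_
        linarith
      have := (c1.tendsto 0).comp t3
      rw [Pi.single_zero] at this
      exact this
    have := t1.add t2
    simpa using this
  · exact hW.tendsto fun m => (hf m).2.2.2.2.1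

end MP3166b2
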