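import Pool.Agent.Lib.MP_3166b2_lc.Choice

/-!
# The real-valued cocycles
-/

namespace MP3166b2

open Set Function Topology Filter

/-! ### The bump functions -/

/-- A bump of height and half-width `1/8` around `0` on the circle. -/
noncomputable def Psi (θ : T) : ℝ := max 0 (1 / 8 - ‖θ‖)

/-- The increment of the bump under the rotation by `1/4`. -/
noncomputable def BB (θ : T) : ℝ := Psi (θ + ((1 / 4 : ℝ) : T)) - Psi θ

theorem continuous_Psi : Continuous Psi := by
  unfold Psi
  fun_prop

theorem continuous_BB : Continuous BB := by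
  unfold BB
  exact (continuous_Psi.comp (continuous_add_const _)).sub continuous_Psi

theorem abs_Psi_sub_le (x y : T) : |Psi x - Psi y| ≤ ‖x - y‖ := by
  unfold Psi
  refine (abs_max_sub_max_le_max _ _ _ _).trans ?_
  simp only [sub_self, abs_zero, sub_sub_sub_cancel_left]
  refine max_le (norm_nonneg _) ?_
  rw [abs_sub_comm]
  exact abs_norm_sub_norm_le x y

theorem Psi_eq_zero {x : T} (h : 1 / 8 ≤ ‖x‖) : Psi x = 0 := by
  unfold Psi
  exact max_eq_left (by linarith)

theorem Psi_eq {x : T} (h : ‖x‖ ≤ 1 / 8) : Psi x = 1 / 8 - ‖x‖ := by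
  unfold Psi
  exact max_eq_right (by linarith)

/-! ### Types, characters and the data -/

/-- The types of characters: `some (inl (t, n, b))` is the relation attached to the coordinates
`(t, n)`, `(t, n + 1)` and, if `b` is true, `(n :: t, 0)`; `some (inr t)` is the family of
coordinates `(t, k)`; `none` is the root. -/
abbrev Ty := Option ((List ℕ × ℕ × Bool) ⊕ List ℕ)

/-- The base group. -/
abbrev SS := Option (List ℕ × ℕ) → T

/-- Evaluation at a nondistinguished coordinate. -/
def ev (i : List ℕ × ℕ) : SS →+ T := Pi.evalAddMonoidHom (fun _ => T) (some i)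

@[simp] theorem ev_apply (i : List ℕ × ℕ) (s : SS) : ev i s = s (some i) := rfl

/-- The characters attached to the types. -/
def phi (ty : Ty) (k : ℕ) : SS →+ T :=
  match ty with
  | some (.inl (t, n, b)) => ev (t, n) - ev (t, n + 1) - (if b then ev (n :: t, 0) else 0)
  | some (.inr t) => ev (t, k)
  | none => ev ([], 0)

theorem phi_R (t : List ℕ) (n : ℕ) (b : Bool) (k : ℕ) (s : SS) :
    phi (some (.inl (t, n, b))) k s =
      s (some (t, n)) - s (some (t, n + 1)) - (if b then s (some (n :: t, 0)) else 0) := by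
  cases b <;> simp [phi]

theorem phi_E (t : List ℕ) (k : ℕ) (s : SS) : phi (some (.inr t)) k s = s (some (t, k)) := rfl

theorem phi_root (k : ℕ) (s : SS) : phi none k s = s (some ([], 0)) := rfl

theorem continuous_ev (i : List ℕ × ℕ) : Continuous (ev i) := continuous_apply _

theorem continuous_phi (ty : Ty) (k : ℕ) : Continuous (phi ty k) := by
  match ty with
  | some (.inl (t, n, false)) =>
    have : (phi (some (.inl (t, n, false))) k : SS → T) =
      fun s => s (some (t, n)) - s (some (t, n + 1)) - 0 := funext fun s => phi_R t n false k s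
    rw [this]
    fun_prop
  | some (.inl (t, n, true)) =>
    have : (phi (some (.inl (t, n, true))) k : SS → T) =
      fun s => s (some (t, n)) - s (some (t, n + 1)) - s (some (n :: t, 0)) :=
        funext fun s => phi_R t n true k s
    rw [this]
    fun_prop
  | some (.inr t) => exact continuous_apply _
  | none => exact continuous_apply _

theorem phi_single (ty : Ty) (k : ℕ) (u : T) : phi ty k (Pi.single none u) = 0 := by
  match ty with
  | some (.inl (t, n, b)) => rw [phi_R]; cases b <;> simp
  | some (.inr t) => rw [phi_E]; simp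
  | none => rw [phi_root]; simp

/-- The distinguished coordinate and the value of a character can be prescribed. -/
theorem exists_phi_eq (ty : Ty) (k : ℕ) (u w : T) : ∃ s : SS, s none = u ∧ phi ty k s = w := by
  match ty with
  | some (.inl (t, n, b)) =>
    refine ⟨Pi.single none u + Pi.single (some (t, n)) w, by simp, ?_⟩
    rw [phi_R]
    cases b <;> simp
  | some (.inr t) =>
    exact ⟨Pi.single none u + Pi.single (some (t, k)) w, by simp, by rw [phi_E]; simp⟩
  | none =>
    exact ⟨Pi.single none u + Pi.single (some ([], 0)) w, by simp, by rw [phi_root]; simp⟩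

/-- The index of the `k`-th character of type `ty`. -/
def idx (ty : Ty) (k : ℕ) : ℕ := Nat.pair (Encodable.encode ty) k

theorem idx_inj {ty ty' : Ty} {k k' : ℕ} (h : idx ty k = idx ty' k') : ty = ty' ∧ k = k' := by
  have := Nat.pair_eq_pair.1 h
  exact ⟨Encodable.encode_injective this.1, this.2⟩

theorem idx_injective (ty : Ty) : Injective (idx ty) := fun _ _ h => (idx_inj h).2

theorem le_idx (ty : Ty) (k : ℕ) : k ≤ idx ty k := Nat.right_le_pair _ _

theorem tendsto_idx (ty : Ty) : Tendsto (idx ty) atTop atTop :=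
  tendsto_atTop_mono (le_idx ty) tendsto_id

/-- All the characters, listed in a sequence. -/
def phim (m : ℕ) : SS →+ T :=
  match Encodable.decode (α := Ty) (Nat.unpair m).1 with
  | some ty => phi ty (Nat.unpair m).2
  | none => 0

theorem phim_idx (ty : Ty) (k : ℕ) : phim (idx ty k) = phi ty k := by
  simp [phim, idx]

theorem continuous_phim (m : ℕ) : Continuous (phim m) := by
  unfold phim
  split
  · exact continuous_phi _ _
  · exact continuous_const

theorem phim_single (m : ℕ) (u : T) : phim m (Pi.single none u) = 0 := by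
  unfold phim
  split
  · exact phi_single _ _ _
  · rfl

/-- The properties of the rotation, of the multiplicities and of the return times. -/
structure IsData (ρ : SS) (M N : ℕ → ℕ) : Prop where
  dense : FwdDense ρ
  N_pos : ∀ m, 1 ≤ N m
  small_rho : ∀ m, ‖phim m ρ + M m • ρ none‖ ≤ (1 / 2) ^ m
  small_ne : ∀ l m, l ≠ m → ‖phim l (N m • ρ) + M l • (N m • ρ) none‖ ≤ (1 / 2) ^ m * (1 / 2) ^ l
  quarter : ∀ m, ‖phim m (N m • ρ) + M m • (N m • ρ) none - ((1 / 4 : ℝ) : T)‖ ≤ (1 / 2) ^ m
  tendsto_N : Tendsto (fun m => N m • ρ) atTop (𝓝 0)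
  tendsto_M : Tendsto (fun m => M m • ρ + Pi.single none (phim m ρ)) atTop (𝓝 0)

theorem exists_data : ∃ D : SS × (ℕ → ℕ) × (ℕ → ℕ), IsData D.1 D.2.1 D.2.2 := by
  obtain ⟨ρ, hρ⟩ := exists_dense_mult (ι := Option (List ℕ × ℕ))
  obtain ⟨M, N, h1, h2, h3, h4, h5, h6⟩ :=
    exists_choice phim continuous_phim phim_single ρ hρ
  exact ⟨(ρ, M, N), hρ, h1, h2, h3, h4, h5, h6⟩

/-- The rotation element. -/
noncomputable def rho : SS := exists_data.choose.1

/-- The multiplicities. -/
noncomputable def MM : ℕ → ℕ := exists_data.choose.2.1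

/-- The return times. -/
noncomputable def NN : ℕ → ℕ := exists_data.choose.2.2

theorem isData : IsData rho MM NN := exists_data.choose_spec

/-- The characters used in the construction. -/
noncomputable def chi (m : ℕ) : SS →+ T :=
  phim m + (nsmulAddMonoidHom (MM m)).comp (Pi.evalAddMonoidHom (fun _ => T) none)

theorem chi_apply (m : ℕ) (s : SS) : chi m s = phim m s + MM m • s none := rfl

theorem continuous_chi (m : ℕ) : Continuous (chi m) :=
  (continuous_phim m).add ((continuous_nsmul _).comp (continuous_apply none))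

theorem norm_chi_rho (m : ℕ) : ‖chi m rho‖ ≤ (1 / 2) ^ m := isData.small_rho m

theorem norm_chi_zsmul_rho (m : ℕ) (n : ℤ) : ‖chi m (n • rho)‖ ≤ |(n : ℝ)| * (1 / 2) ^ m := by
  rw [map_zsmul]
  refine (norm_zsmul_le _ _).trans ?_
  exact mul_le_mul_of_nonneg_left (norm_chi_rho m) (abs_nonneg _)

theorem norm_chi_N {l m : ℕ} (h : l ≠ m) :
    ‖chi l (NN m • rho)‖ ≤ (1 / 2) ^ m * (1 / 2) ^ l := isData.small_ne l m h

theorem norm_chi_N_self (m : ℕ) :
    ‖chi m (NN m • rho) - ((1 / 4 : ℝ) : T)‖ ≤ (1 / 2) ^ m := isData.quarter m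

/-- The distinguished coordinate and the value of `chi` can be prescribed. -/
theorem exists_chi_eq (ty : Ty) (k : ℕ) (u w : T) :
    ∃ s : SS, s none = u ∧ chi (idx ty k) s = w := by
  obtain ⟨s, h1, h2⟩ := exists_phi_eq ty k u (w - MM (idx ty k) • u)
  refine ⟨s, h1, ?_⟩
  rw [chi_apply, phim_idx, h2, h1, sub_add_cancel]

/-! ### The cocycles -/

/-- The terms of the series defining the cocycles. -/
noncomputable def term (ty : Ty) (c : T) (n : ℤ) (s : SS) (k : ℕ) : ℝ :=
  Psi (chi (idx ty k) (s + n • rho) - c) - Psi (chi (idx ty k) s - c)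

/-- The real cocycle of type `ty` and offset `c`. -/
noncomputable def GG (ty : Ty) (c : T) (n : ℤ) (s : SS) : ℝ := ∑' k, term ty c n s k

theorem abs_term_le (ty : Ty) (c : T) (n : ℤ) (s : SS) (k : ℕ) :
    |term ty c n s k| ≤ ‖chi (idx ty k) (n • rho)‖ := by
  unfold term
  refine (abs_Psi_sub_le _ _).trans (le_of_eq ?_)
  congr 1
  rw [map_add]
  abel

theorem summable_idx (ty : Ty) : Summable fun k => ((1 : ℝ) / 2) ^ (idx ty k) :=
  summable_geometric_two.comp_injective (idx_injective ty)

theorem tsum_idx_le (ty : Ty) : ∑' k, ((1 : ℝ) / 2) ^ (idx ty k) ≤ 2 := by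
  have h := Summable.tsum_le_tsum_of_inj (f := fun k => ((1 : ℝ) / 2) ^ (idx ty k))
    (g := fun m => ((1 : ℝ) / 2) ^ m) (idx ty) (idx_injective ty) (fun _ _ => by positivity)
    (fun _ => le_rfl) (summable_idx ty) summable_geometric_two
  rwa [tsum_geometric_two] at h

theorem summable_bound (ty : Ty) (n : ℤ) :
    Summable fun k => |(n : ℝ)| * ((1 : ℝ) / 2) ^ (idx ty k) :=
  (summable_idx ty).mul_left _

theorem norm_term_le (ty : Ty) (c : T) (n : ℤ) (s : SS) (k : ℕ) :
    ‖term ty c n s k‖ ≤ |(n : ℝ)| * (1 / 2) ^ (idx ty k) :=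
  (abs_term_le ty c n s k).trans (norm_chi_zsmul_rho _ _)

theorem summable_term (ty : Ty) (c : T) (n : ℤ) (s : SS) : Summable (term ty c n s) :=
  Summable.of_norm_bounded (summable_bound ty n) (norm_term_le ty c n s)

theorem continuous_term (ty : Ty) (n : ℤ) (k : ℕ) :
    Continuous fun q : T × SS => term ty q.1 n q.2 k := by
  unfold term
  have h1 : Continuous fun q : T × SS => chi (idx ty k) (q.2 + n • rho) - q.1 :=
    ((continuous_chi _).comp (continuous_snd.add continuous_const)).sub continuous_fst
  have h2 : Continuous fun q : T × SS => chi (idx ty k) q.2 - q.1 :=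
    ((continuous_chi _).comp continuous_snd).sub continuous_fst
  exact (continuous_Psi.comp h1).sub (continuous_Psi.comp h2)

theorem continuous_GG' (ty : Ty) (n : ℤ) : Continuous fun q : T × SS => GG ty q.1 n q.2 := by
  unfold GG
  exact continuous_tsum (fun k => continuous_term ty n k) (summable_bound ty n)
    (fun k q => norm_term_le ty q.1 n q.2 k)

theorem continuous_GG (ty : Ty) (c : T) (n : ℤ) : Continuous fun s : SS => GG ty c n s :=
  Continuous.comp (g := fun q : T × SS => GG ty q.1 n q.2) (f := fun s : SS => ((c, s) : T × SS))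
    (continuous_GG' ty n) (Continuous.prodMk continuous_const continuous_id)

theorem term_add (ty : Ty) (c : T) (m n : ℤ) (s : SS) (k : ℕ) :
    term ty c (m + n) s k = term ty c m s k + term ty c n (s + m • rho) k := by
  unfold term
  rw [add_smul, add_assoc]
  ring

theorem GG_add (ty : Ty) (c : T) (m n : ℤ) (s : SS) :
    GG ty c (m + n) s = GG ty c m s + GG ty c n (s + m • rho) := by
  unfold GG
  rw [← (summable_term ty c m s).tsum_add (summable_term ty c n (s + m • rho))]
  exact tsum_congr fun k => term_add ty c m n s k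

/-! ### Estimates at the return times -/

theorem GG_estimate_self (ty : Ty) (c : T) (k : ℕ) (s : SS) :
    |GG ty c (NN (idx ty k)) s - BB (chi (idx ty k) s - c)| ≤ 3 * (1 / 2) ^ (idx ty k) := by
  classical
  set m := idx ty k with hm
  set b := BB (chi m s - c) with hb
  have hsum1 := summable_term ty c (NN m) s
  have hsum2 : Summable fun k' => if k' = k then b else 0 := (hasSum_ite_eq k b).summable
  have e1 : GG ty c (NN m) s - b = ∑' k', (term ty c (NN m) s k' - if k' = k then b else 0) := by
    rw [hsum1.tsum_sub hsum2, tsum_ite_eq]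
    rfl
  rw [e1, ← Real.norm_eq_abs]
  have hs : HasSum (fun k' => (1 / 2 : ℝ) ^ m * (1 / 2) ^ (idx ty k') +
      if k' = k then (1 / 2 : ℝ) ^ m else 0)
      ((1 / 2 : ℝ) ^ m * (∑' k', ((1 : ℝ) / 2) ^ (idx ty k')) + (1 / 2) ^ m) :=
    ((summable_idx ty).hasSum.mul_left _).add (hasSum_ite_eq k _)
  have hbound : ∀ k', ‖term ty c (NN m) s k' - if k' = k then b else 0‖ ≤
      (1 / 2 : ℝ) ^ m * (1 / 2) ^ (idx ty k') + if k' = k then (1 / 2 : ℝ) ^ m else 0 := by
    intro k'
    by_cases hk : k' = k
    · subst hk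
      simp only [if_true]
      rw [← hm]
      have h0 : (0 : ℝ) ≤ (1 / 2 : ℝ) ^ m * (1 / 2) ^ m := by positivity
      refine le_trans ?_ (le_add_of_nonneg_left h0)
      have : term ty c (NN m) s k' - b =
          Psi (chi m (s + (NN m : ℤ) • rho) - c) - Psi (chi m s - c + ((1 / 4 : ℝ) : T)) := by
        rw [hb]
        unfold term BB
        rw [← hm]
        ring
      rw [this, Real.norm_eq_abs]
      refine (abs_Psi_sub_le _ _).trans ?_
      have e2 : chi m (s + (NN m : ℤ) • rho) - c - (chi m s - c + ((1 / 4 : ℝ) : T)) =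
          chi m (NN m • rho) - ((1 / 4 : ℝ) : T) := by
        rw [map_add, natCast_zsmul]
        abel
      rw [e2]
      exact norm_chi_N_self m
    · simp only [if_neg hk, sub_zero, add_zero]
      rw [Real.norm_eq_abs]
      refine (abs_term_le _ _ _ _ _).trans ?_
      rw [natCast_zsmul]
      exact norm_chi_N fun h => hk (idx_injective ty h)
  refine (tsum_of_norm_bounded hs hbound).trans ?_
  have h1 := tsum_idx_le ty
  have h2 : (0 : ℝ) < (1 / 2) ^ m := by positivity
  nlinarith

theorem GG_estimate_ne (ty : Ty) (c : T) (m : ℕ) (hm : ∀ k, idx ty k ≠ m) (s : SS) :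
    |GG ty c (NN m) s| ≤ 2 * (1 / 2) ^ m := by
  rw [← Real.norm_eq_abs]
  have hs : HasSum (fun k' => (1 / 2 : ℝ) ^ m * (1 / 2) ^ (idx ty k'))
      ((1 / 2 : ℝ) ^ m * (∑' k', ((1 : ℝ) / 2) ^ (idx ty k'))) :=
    (summable_idx ty).hasSum.mul_left _
  refine (tsum_of_norm_bounded hs fun k' => ?_).trans ?_
  · rw [Real.norm_eq_abs]
    refine (abs_term_le _ _ _ _ _).trans ?_
    rw [natCast_zsmul]
    exact norm_chi_N (hm k')
  · have h1 := tsum_idx_le ty
    have h2 : (0 : ℝ) < (1 / 2) ^ m := by positivity
    nlinarith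

end MP3166b2
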