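import Pool.Agent.Lib.MP_3166b2_lc.Defs
import Pool.Agent.Lib.MP_3166b2_lc.Bwd

/-!
# Transport of systems to the Hilbert cube, and continuity of the coding map
-/

namespace MP3166b2

open Set Function Topology Filter TopologicalSpace PiNat

/-! ### Transport -/

section
variable {X : Type*} [TopologicalSpace X] [CompactSpace X] [Nonempty X]

/-- The homeomorphism onto the image. -/
noncomputable def toImage (ι : X → Q) (hι : IsEmbedding ι) : X ≃ₜ Set.range ι :=
  hι.toHomeomorph

omit [CompactSpace X] [Nonempty X] in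
theorem toImage_apply (ι : X → Q) (hι : IsEmbedding ι) (x : X) :
    ((toImage ι hι x : Set.range ι) : Q) = ι x := rfl

/-- The system on the image. -/
noncomputable def sysOf (ι : X → Q) (hι : IsEmbedding ι) (T : X ≃ₜ X) : Sys where
  K := Set.range ι
  nonempty := Set.range_nonempty _
  compact := isCompact_range hι.continuous
  T := (toImage ι hι).symm.trans (T.trans (toImage ι hι))

theorem sysOf_T_apply (ι : X → Q) (hι : IsEmbedding ι) (T : X ≃ₜ X) (x : X) :
    (sysOf ι hι T).T (toImage ι hι x) = toImage ι hι (T x) := by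
  change toImage ι hι (T ((toImage ι hι).symm (toImage ι hι x))) = _
  rw [Homeomorph.symm_apply_apply]

theorem sysOf_T_inv_apply (ι : X → Q) (hι : IsEmbedding ι) (T : X ≃ₜ X) (x : X) :
    ((sysOf ι hι T).T)⁻¹ (toImage ι hι x) = toImage ι hι (T⁻¹ x) := by
  change toImage ι hι (T.symm ((toImage ι hι).symm (toImage ι hι x))) = _
  rw [Homeomorph.symm_apply_apply]
  rfl

theorem sysOf_zpow_apply (ι : X → Q) (hι : IsEmbedding ι) (T : X ≃ₜ X) (n : ℤ) (x : X) :
    ((sysOf ι hι T).T ^ n) (toImage ι hι x) = toImage ι hι ((T ^ n) x) := by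
  induction n generalizing x with
  | zero => rfl
  | succ n ih =>
    rw [zpow_add_one, zpow_add_one, Homeomorph.mul_apply, Homeomorph.mul_apply, sysOf_T_apply, ih]
  | pred n ih =>
    rw [zpow_sub_one, zpow_sub_one, Homeomorph.mul_apply, Homeomorph.mul_apply,
      sysOf_T_inv_apply, ih]

theorem sysOf_code (ι : X → Q) (hι : IsEmbedding ι) (T : X ≃ₜ X) :
    (sysOf ι hι T).graph = Set.range fun x : X => (ι x, ι (T x)) := by
  change (Set.range fun x : (sysOf ι hι T).K => ((x : Q), ((sysOf ι hι T).T x : Q))) = _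
  ext q
  constructor
  · rintro ⟨x, rfl⟩
    obtain ⟨z, rfl⟩ := (toImage ι hι).surjective x
    refine ⟨z, ?_⟩
    simp only
    rw [sysOf_T_apply, toImage_apply, toImage_apply]
  · rintro ⟨z, rfl⟩
    refine ⟨toImage ι hι z, ?_⟩
    simp only
    rw [sysOf_T_apply, toImage_apply, toImage_apply]

theorem sysOf_minimal (ι : X → Q) (hι : IsEmbedding ι) (T : X ≃ₜ X)
    (h : ∀ x, Dense (range fun n : ℤ => (T ^ n) x)) : (sysOf ι hι T).Minimal := by
  intro x
  obtain ⟨z, rfl⟩ := (toImage ι hι).surjective x
  have h1 : (range fun n : ℤ => (sysOf ι hι T).iter n (toImage ι hι z)) =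
      toImage ι hι '' (range fun n : ℤ => (T ^ n) z) := by
    rw [← range_comp]
    congr 1
    funext n
    exact sysOf_zpow_apply ι hι T n z
  rw [h1]
  exact (toImage ι hι).surjective.denseRange.dense_image (toImage ι hι).continuous (h z)

theorem sysOf_distal (ι : X → Q) (hι : IsEmbedding ι) (T : X ≃ₜ X) (d : MetricSpace Q)
    (hd : Compatible d)
    (h : ∀ x y, x ≠ y → ∃ C : Set (X × X), IsClosed C ∧ (∀ n : ℤ, ((T ^ n) x, (T ^ n) y) ∈ C) ∧
      ∀ x, (x, x) ∉ C) : (sysOf ι hι T).Distal d := by
  intro x y hxy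
  obtain ⟨x, rfl⟩ := (toImage ι hι).surjective x
  obtain ⟨y, rfl⟩ := (toImage ι hι).surjective y
  have hxy' : x ≠ y := fun h => hxy (by rw [h])
  obtain ⟨C, hC, hmem, hdiag⟩ := h x y hxy'
  have hdist : Continuous fun q : Q × Q => d.dist q.1 q.2 := by
    have h1 := @continuous_dist Q d.toPseudoMetricSpace
    unfold Compatible at hd
    rw [hd] at h1
    exact h1
  have hcont : Continuous fun q : X × X => d.dist (ι q.1) (ι q.2) :=
    hdist.comp ((hι.continuous.comp continuous_fst).prodMk (hι.continuous.comp continuous_snd))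
  obtain ⟨q, hq, hmin⟩ := hC.isCompact.exists_isMinOn ⟨_, hmem 0⟩ hcont.continuousOn
  refine ⟨d.dist (ι q.1) (ι q.2), ?_, fun n => ?_⟩
  · have hne : ι q.1 ≠ ι q.2 := by
      intro h1
      have h2 := hι.injective h1
      apply hdiag q.1
      have : (q.1, q.1) = q := Prod.ext rfl h2
      rw [this]
      exact hq
    exact (@dist_pos Q d _ _).2 hne
  · unfold Sys.iter
    rw [sysOf_zpow_apply, sysOf_zpow_apply, toImage_apply, toImage_apply]
    exact hmin (hmem n)

omit [CompactSpace X] [Nonempty X] in
theorem conj_iff {Y : Type*} [TopologicalSpace Y] (e : X ≃ₜ Y) (T T' : X ≃ₜ X) :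
    (∃ h : Y ≃ₜ Y, ∀ y, h (e.symm.trans (T.trans e) y) = e.symm.trans (T'.trans e) (h y)) ↔
      ∃ h : X ≃ₜ X, ∀ x, h (T x) = T' (h x) := by
  constructor
  · rintro ⟨h, hh⟩
    refine ⟨e.trans (h.trans e.symm), fun x => ?_⟩
    have h1 := hh (e x)
    simp only [Homeomorph.trans_apply, Homeomorph.symm_apply_apply] at h1 ⊢
    rw [h1, Homeomorph.symm_apply_apply]
  · rintro ⟨h, hh⟩
    refine ⟨e.symm.trans (h.trans e), fun y => ?_⟩
    simp only [Homeomorph.trans_apply, Homeomorph.symm_apply_apply]
    rw [hh]

theorem sysOf_conj (ι : X → Q) (hι : IsEmbedding ι) (T T' : X ≃ₜ X) :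
    (sysOf ι hι T).Conj (sysOf ι hι T') ↔ ∃ h : X ≃ₜ X, ∀ x, h (T x) = T' (h x) :=
  conj_iff (toImage ι hι) T T'

end

/-! ### The embedding of the phase space -/

theorem exists_embedding : ∃ F : ZZ JJ → Q, IsEmbedding F := by
  let _ : MetricSpace (ZZ JJ) := metrizableSpaceMetric _
  exact Metric.PiNatEmbed.exists_embedding_to_hilbert_cube

/-- An embedding of the phase space into the Hilbert cube. -/
noncomputable def emb : ZZ JJ → Q := exists_embedding.choose

theorem isEmbedding_emb : IsEmbedding emb := exists_embedding.choose_spec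

/-- The system attached to a tree and to an offset. -/
noncomputable def treeSys (p : List ℕ → Bool) (v : T) : Sys :=
  sysOf emb isEmbedding_emb (TT (sel p v))

theorem treeSys_minimal (p : List ℕ → Bool) (v : T) : (treeSys p v).Minimal := by
  refine sysOf_minimal _ _ _ fun x => ?_
  have := stp_minimal (sel p v) (sel_injective p v) x
  simp only [TT_zpow]
  exact this

theorem treeSys_distal (p : List ℕ → Bool) (v : T) (d : MetricSpace Q)
    (hd : Compatible d) :
    (treeSys p v).Distal d := by
  refine sysOf_distal _ _ _ d hd fun x y hxy => ?_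
  simp only [TT_zpow]
  exact stp_distal (sel p v) hxy

theorem treeSys_conj (p : List ℕ → Bool) {v : T} (hv : v ≠ 0) :
    (treeSys p 0).Conj (treeSys p v) ↔ Good p := by
  unfold treeSys
  rw [sysOf_conj]
  constructor
  · rintro ⟨h, hh⟩
    exact good_of_conj hv h h.continuous hh
  · intro hp
    exact conj_of_good hp v

/-! ### Continuity of the coding -/

theorem continuous_GG_sel (v : T) (j : JJ) :
    Continuous fun q : (List ℕ → Bool) × SS => GG (sel q.1 v j).1 (sel q.1 v j).2 1 q.2 := by
  match j with
  | some (.inl (t, n)) =>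
    have h1 : Continuous fun q : Bool × SS => GG (some (.inl (t, n, q.1))) 0 1 q.2 := by
      rw [continuous_prod_of_discrete_left]
      intro b
      exact continuous_GG (some (.inl (t, n, b))) 0 1
    have h2 : Continuous fun q : (List ℕ → Bool) × SS => ((q.1 (n :: t), q.2) : Bool × SS) :=
      ((continuous_apply _).comp continuous_fst).prodMk continuous_snd
    have h3 := Continuous.comp (g := fun q : Bool × SS => GG (some (.inl (t, n, q.1))) 0 1 q.2)
      (f := fun q : (List ℕ → Bool) × SS => ((q.1 (n :: t), q.2) : Bool × SS)) h1 h2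
    exact h3
  | some (.inr t) =>
    have h3 := Continuous.comp (g := fun s : SS => GG (some (.inr t)) 0 1 s)
      (f := fun q : (List ℕ → Bool) × SS => q.2) (continuous_GG (some (.inr t)) 0 1) continuous_snd
    exact h3
  | none =>
    have h3 := Continuous.comp (g := fun s : SS => GG none v 1 s)
      (f := fun q : (List ℕ → Bool) × SS => q.2) (continuous_GG none v 1) continuous_snd
    exact h3

theorem continuous_EE_sel (v : T) :
    Continuous fun q : (List ℕ → Bool) × SS => EE (sel q.1 v) 1 q.2 := by
  refine continuous_pi fun i => ?_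
  match i with
  | none =>
    have h1 : Continuous fun s : SS => (1 : ℤ) • s none + tri 1 • rho none := by
      have h : Continuous fun s : SS => s none := continuous_apply none
      exact ((continuous_zsmul 1).comp h).add continuous_const
    exact h1.comp continuous_snd
  | some j =>
    have h3 := Continuous.comp (g := fun r : ℝ => (r : T))
      (f := fun q : (List ℕ → Bool) × SS => GG (sel q.1 v j).1 (sel q.1 v j).2 1 q.2)
      continuous_coe_T (continuous_GG_sel v j)
    exact h3

theorem continuous_TT_sel (v : T) :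
    Continuous fun q : (List ℕ → Bool) × ZZ JJ => stp (sel q.1 v) 1 q.2 := by
  have h1 : Continuous fun q : (List ℕ → Bool) × ZZ JJ => EE (sel q.1 v) 1 q.2.1 :=
    Continuous.comp (g := fun q : (List ℕ → Bool) × SS => EE (sel q.1 v) 1 q.2)
      (f := fun q : (List ℕ → Bool) × ZZ JJ => ((q.1, q.2.1) : (List ℕ → Bool) × SS))
      (continuous_EE_sel v) (continuous_fst.prodMk (continuous_fst.comp continuous_snd))
  have h2 : Continuous fun q : (List ℕ → Bool) × ZZ JJ => q.2.1 + (1 : ℤ) • rho :=
    (continuous_fst.comp continuous_snd).add continuous_const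
  have h3 : Continuous fun q : (List ℕ → Bool) × ZZ JJ => q.2.2 + EE (sel q.1 v) 1 q.2.1 :=
    (continuous_snd.comp continuous_snd).add h1
  exact h2.prodMk h3

theorem continuous_code (v : T) : Continuous fun p : List ℕ → Bool => (treeSys p v).code := by
  let G : (List ℕ → Bool) → ZZ JJ → Q × Q := fun p z => (emb z, emb (stp (sel p v) 1 z))
  have hG : Continuous (uncurry G) :=
    (isEmbedding_emb.continuous.comp continuous_snd).prodMk
      (isEmbedding_emb.continuous.comp (continuous_TT_sel v))
  have h1 := Continuous.nonemptyCompacts_map' (f := fun _ : List ℕ → Bool =>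
    (⊤ : NonemptyCompacts (ZZ JJ))) continuous_const hG
  refine h1.congr fun p => ?_
  refine NonemptyCompacts.ext ?_
  rw [NonemptyCompacts.coe_map, NonemptyCompacts.coe_top, image_univ]
  exact (sysOf_code emb isEmbedding_emb (TT (sel p v))).symm

end MP3166b2
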