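import Mathlib

/-!
# Definitions for MP_3166b2_lc

Homeomorphisms of nonempty compact subsets of the Hilbert cube, their codes in the hyperspace of
nonempty compact subsets of `Q × Q` with the Vietoris topology, minimality, distality and
topological conjugacy.
-/

namespace MP3166b2

open Set Topology TopologicalSpace

/-- The Hilbert cube `[0,1]^ℕ`. -/
def Q : Type := ℕ → unitInterval

/-- The product topology of the Hilbert cube. -/
instance instTopQ : TopologicalSpace Q := Pi.topologicalSpace

/-- A metric of the Hilbert cube is compatible if it induces the product topology. -/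
def Compatible (d : MetricSpace Q) : Prop :=
  d.toUniformSpace.toTopologicalSpace = instTopQ

/-- The hyperspace of the nonempty compact subsets of `Q × Q`. -/
def Hyp : Type := NonemptyCompacts (Q × Q)

/-- The Vietoris topology of the hyperspace. -/
instance instTopHyp : TopologicalSpace Hyp := NonemptyCompacts.topology

/-- A pair `(K, T)`: a nonempty compact subset `K` of the Hilbert cube and a homeomorphism
`T : K → K`. -/
structure Sys where
  /-- the subset of the Hilbert cube -/
  K : Set Q
  /-- `K` is nonempty -/
  nonempty : K.Nonempty
  /-- `K` is compact -/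
  compact : IsCompact K
  /-- the homeomorphism of `K` onto itself -/
  T : K ≃ₜ K

namespace Sys

/-- The graph `{(x, T x) : x ∈ K}` of `T`. -/
def graph (A : Sys) : Set (Q × Q) := Set.range fun x : A.K => ((x : Q), (A.T x : Q))

theorem isCompact_graph (A : Sys) : IsCompact A.graph := by
  have : CompactSpace A.K := isCompact_iff_compactSpace.1 A.compact
  exact isCompact_range
    (continuous_subtype_val.prodMk (continuous_subtype_val.comp A.T.continuous))

theorem nonempty_graph (A : Sys) : A.graph.Nonempty := by
  have : Nonempty A.K := A.nonempty.to_subtype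
  exact Set.range_nonempty _

/-- The code of `(K, T)`: the graph of `T`, as a point of the hyperspace. -/
def code (A : Sys) : Hyp where
  carrier := A.graph
  isCompact' := A.isCompact_graph
  nonempty' := A.nonempty_graph

/-- The point `T ^ n x`, for `x ∈ K` and an integer `n`. -/
def iter (A : Sys) (n : ℤ) (x : A.K) : A.K := (A.T ^ n) x

/-- `(K, T)` is minimal: the orbit `{T ^ n x : n ∈ ℤ}` of every point `x` is dense in `K`. -/
def Minimal (A : Sys) : Prop :=
  ∀ x : A.K, Dense (Set.range fun n : ℤ => A.iter n x)

/-- `(K, T)` is (topologically) distal with respect to the metric `d` of the Hilbert cube: for any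
two distinct points `x, y` of `K` the distances `d (T ^ n x) (T ^ n y)`, `n ∈ ℤ`, are bounded below
by a positive number. -/
def Distal (d : MetricSpace Q) (A : Sys) : Prop :=
  ∀ x y : A.K, x ≠ y → ∃ ε : ℝ, 0 < ε ∧ ∀ n : ℤ, ε ≤ d.dist (A.iter n x) (A.iter n y)

/-- `(K, T)` and `(L, S)` are topologically conjugate: there is a homeomorphism `h : K → L` with
`h ∘ T = S ∘ h`. -/
def Conj (A B : Sys) : Prop :=
  ∃ h : A.K ≃ₜ B.K, ∀ x : A.K, h (A.T x) = B.T (h x)

end Sys

/-- The space `X` of the codes of minimal homeomorphisms. -/
def X : Type := {Γ : Hyp // ∃ A : Sys, A.Minimal ∧ A.code = Γ}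

/-- The subspace topology of `X`. -/
instance instTopX : TopologicalSpace X := instTopologicalSpaceSubtype

/-- The code of a minimal pair, as a point of `X`. -/
def Sys.codeX (A : Sys) (hA : A.Minimal) : X := ⟨A.code, A, hA, rfl⟩

/-- Borel subsets of `X × X`. -/
def IsBorel (B : Set (X × X)) : Prop := @MeasurableSet (X × X) (borel (X × X)) B

end MP3166b2
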