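import Pool.Agent.Lib.MP_3166b2_lc.Skew

/-!
# Consequences of a conjugacy
-/

namespace MP3166b2

open Set Function Topology Filter

/-! ### A property of the bump increment -/

theorem norm_coe_ge {x : ℝ} (h1 : 1 / 8 ≤ |x|) (h2 : |x| ≤ 7 / 8) : 1 / 8 ≤ ‖(x : T)‖ := by
  by_cases h : |x| ≤ 1 / 2
  · rw [norm_coe_of_le h]
    exact h1
  · push Not at h
    rcases le_or_gt 0 x with hx | hx
    · rw [abs_of_nonneg hx] at h h2
      have e : (x : T) = ((x - 1 : ℝ) : T) := by
        have := AddCircle.coe_add_period (1 : ℝ) (x - 1)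
        rw [sub_add_cancel] at this
        exact this
      rw [e, norm_coe_of_le]
      · rw [abs_of_nonpos (by linarith)]; linarith
      · rw [abs_of_nonpos (by linarith)]; linarith
    · rw [abs_of_neg hx] at h h2
      have e : (x : T) = ((x + 1 : ℝ) : T) := (AddCircle.coe_add_period (1 : ℝ) x).symm
      rw [e, norm_coe_of_le]
      · rw [abs_of_nonneg (by linarith)]; linarith
      · rw [abs_of_nonneg (by linarith)]; linarith

theorem Psi_coe_zero {x : ℝ} (h1 : 1 / 8 ≤ |x|) (h2 : |x| ≤ 7 / 8) : Psi (x : T) = 0 :=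
  Psi_eq_zero (norm_coe_ge h1 h2)

theorem BB_coe (x : ℝ) : BB (x : T) = Psi ((x + 1 / 4 : ℝ) : T) - Psi (x : T) := rfl

theorem exists_theta (β : T) : ∃ θ : T, BB θ = 0 ∧ min ‖β‖ (1 / 8) ≤ |BB (θ + β)| := by
  obtain ⟨b, rfl, hb1, hb2⟩ := exists_rep β
  rw [hb1]
  have hadd : ∀ x : ℝ, (x : T) + (b : T) = ((x + b : ℝ) : T) := fun x => rfl
  rcases le_total 0 b with h0 | h0
  · rw [abs_of_nonneg h0] at hb2 ⊢
    rcases le_total b (1 / 8) with h8 | h8
    · refine ⟨((-3 / 8 : ℝ) : T), ?_, ?_⟩
      · rw [BB_coe, Psi_coe_zero, Psi_coe_zero, sub_zero] <;> norm_num [abs_of_neg]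
      · rw [hadd, BB_coe]
        have a1 : |(-3 / 8 + b : ℝ)| = 3 / 8 - b := by rw [abs_of_nonpos (by linarith)]; ring
        have a2 : |(-3 / 8 + b + 1 / 4 : ℝ)| = 1 / 8 - b := by
          rw [abs_of_nonpos (by linarith)]; ring
        rw [Psi_coe_zero (x := -3 / 8 + b) (by rw [a1]; linarith) (by rw [a1]; linarith)]
        have n1 : ‖((-3 / 8 + b + 1 / 4 : ℝ) : T)‖ = 1 / 8 - b := by
          rw [norm_coe_of_le (by rw [a2]; linarith), a2]
        rw [Psi_eq (by rw [n1]; linarith), n1]
        refine (min_le_left _ _).trans (le_trans (le_of_eq ?_) (le_abs_self _))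
        ring
    · refine ⟨((-1 / 4 - b : ℝ) : T), ?_, ?_⟩
      · rw [BB_coe, Psi_coe_zero, Psi_coe_zero, sub_zero]
        · rw [abs_of_nonpos (by linarith)]; linarith
        · rw [abs_of_nonpos (by linarith)]; linarith
        · rw [abs_of_nonpos (by linarith)]; linarith
        · rw [abs_of_nonpos (by linarith)]; linarith
      · rw [hadd, BB_coe]
        have e1 : (-1 / 4 - b + b : ℝ) = -1 / 4 := by ring
        rw [e1]
        have e2 : (-1 / 4 + 1 / 4 : ℝ) = 0 := by norm_num
        rw [e2, Psi_coe_zero (x := -1 / 4) (by norm_num [abs_of_neg]) (by norm_num [abs_of_neg])]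
        have e3 : Psi ((0 : ℝ) : T) = 1 / 8 := by
          have : ((0 : ℝ) : T) = 0 := rfl
          rw [this, Psi_eq (by rw [norm_zero]; norm_num), norm_zero, sub_zero]
        rw [e3, sub_zero]
        refine (min_le_right _ _).trans (le_abs_self _)
  · rw [abs_of_nonpos h0] at hb2 ⊢
    rcases le_total (-b) (1 / 8) with h8 | h8
    · refine ⟨((1 / 8 : ℝ) : T), ?_, ?_⟩
      · have := BB_neg (r := 0) le_rfl (by norm_num)
        simpa using this
      · rw [hadd]
        have := BB_neg (r := -b) (by linarith) h8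
        rw [sub_neg_eq_add, neg_neg] at this
        rw [this, abs_of_nonpos h0]
        exact min_le_left _ _
    · refine ⟨((-b : ℝ) : T), ?_, ?_⟩
      · rw [BB_coe, Psi_coe_zero, Psi_coe_zero, sub_zero]
        · rw [abs_of_nonneg (by linarith)]; linarith
        · rw [abs_of_nonneg (by linarith)]; linarith
        · rw [abs_of_nonneg (by linarith)]; linarith
        · rw [abs_of_nonneg (by linarith)]; linarith
      · rw [hadd, neg_add_cancel]
        have := BB_neg (r := 1 / 8) (by norm_num) le_rfl
        rw [sub_self] at this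
        rw [this]
        refine (min_le_right _ _).trans ?_
        norm_num

theorem abs_BB_le (θ : T) : |BB θ| ≤ 1 / 8 := by
  unfold BB
  have h : ∀ x : T, 0 ≤ Psi x ∧ Psi x ≤ 1 / 8 := by
    intro x
    unfold Psi
    exact ⟨le_max_left _ _, max_le (by norm_num) (by linarith [norm_nonneg x])⟩
  have h1 := h θ
  have h2 := h (θ + ((1 / 4 : ℝ) : T))
  rw [abs_le]
  constructor <;> linarith [h1.1, h1.2, h2.1, h2.2]

/-! ### Constant functions, uniform continuity -/

variable {J : Type*}

theorem const_of_invariant [Countable J] [Nonempty J] (σ : J → Ty × T)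
    (hσ : Injective fun j => (σ j).1) {W : Type*} [TopologicalSpace W] [T2Space W]
    (f : ZZ J → W) (hf : Continuous f) (hinv : ∀ n z, f (stp σ n z) = f z) (z z' : ZZ J) :
    f z = f z' := by
  have hcl : IsClosed {x | f x = f z'} := isClosed_eq hf continuous_const
  have hsub : (range fun n : ℤ => stp σ n z') ⊆ {x | f x = f z'} := by
    rintro _ ⟨n, rfl⟩
    exact hinv n z'
  exact hcl.closure_subset_iff.2 hsub (stp_minimal σ hσ z' z)

theorem tendsto_sub_of_tendsto {K : Type*} [UniformSpace K] [AddCommGroup K] [IsUniformAddGroup K]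
    (g : SS → K) (hg : Continuous g) (s r : ℕ → SS) (hr : Tendsto r atTop (𝓝 0)) :
    Tendsto (fun k => g (s k + r k) - g (s k)) atTop (𝓝 0) := by
  have hu : UniformContinuous g := CompactSpace.uniformContinuous_of_continuous hg
  have h1 : Tendsto (fun k => (s k, s k + r k)) atTop (uniformity SS) := by
    rw [uniformity_eq_comap_nhds_zero SS, tendsto_comap_iff]
    refine hr.congr fun k => ?_
    simp
  have h2 := Tendsto.comp hu h1
  rw [uniformity_eq_comap_nhds_zero K, tendsto_comap_iff] at h2
  exact h2

/-! ### The data extracted from a conjugacy -/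

theorem forward [Countable J] [Nonempty J] (σ σ' : J → Ty × T)
    (hσ : Injective fun j => (σ j).1) (hty : ∀ j, (σ' j).1 = (σ j).1)
    (h : ZZ J → ZZ J) (hc : Continuous h) (hconj : ∀ z, h (stp σ 1 z) = stp σ' 1 (h z)) :
    ∃ (a : SS) (γ : T →+ T), ∀ j, Tendsto
      (fun k => phi (σ j).1 k a - γ (phi (σ j).1 k rho)) atTop (𝓝 ((σ' j).2 - (σ j).2)) := by
  classical
  -- all the powers
  have hpow : ∀ (n : ℤ) (z : ZZ J), h (stp σ n z) = stp σ' n (h z) := by
    intro n
    induction n with
    | zero => intro z; rw [stp_zero, stp_zero]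
    | succ n ih => intro z; rw [← stp_stp, hconj, ih, stp_stp]
    | pred n ih =>
      intro z
      have h1 : stp σ' 1 (h (stp σ (-(n : ℤ) - 1) z)) = stp σ' (-(n : ℤ)) (h z) := by
        rw [← hconj, stp_stp, sub_add_cancel, ih]
      have h2 : stp σ' (-1) (stp σ' 1 (h (stp σ (-(n : ℤ) - 1) z))) =
          stp σ' (-1) (stp σ' (-(n : ℤ)) (h z)) := by rw [h1]
      rw [stp_stp, stp_stp, add_neg_cancel, stp_zero] at h2
      exact h2
  -- the translation part on the base
  obtain ⟨a, ha⟩ : ∃ a : SS, ∀ z, (h z).1 = z.1 + a := by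
    refine ⟨(h 0).1 - (0 : ZZ J).1, fun z => ?_⟩
    have := const_of_invariant σ hσ (fun z => (h z).1 - z.1)
      ((continuous_fst.comp hc).sub continuous_fst) (fun n z => by
        rw [hpow, stp_fst, stp_fst]; abel) z 0
    rw [← this]
    abel
  -- the homomorphism on the fibres
  let δ : (Option J → T) → (Option J → T) := fun u => (h (0, u)).2 - (h (0, 0)).2
  have hδ : ∀ (s : SS) (k u : Option J → T), (h (s, k + u)).2 = (h (s, k)).2 + δ u := by
    intro s k u
    have hcont : Continuous fun z : ZZ J => (h (z.1, z.2 + u)).2 - (h z).2 :=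
      (continuous_snd.comp (hc.comp (continuous_fst.prodMk
        (continuous_snd.add continuous_const)))).sub (continuous_snd.comp hc)
    have := const_of_invariant σ hσ (fun z => (h (z.1, z.2 + u)).2 - (h z).2) hcont
      (fun n z => by
        have e : (((stp σ n z).1, (stp σ n z).2 + u) : ZZ J) = stp σ n (z.1, z.2 + u) := by
          rw [stp_translate]
        rw [e, hpow, hpow, stp_snd, stp_snd, ha, ha]
        simp only
        abel) (s, k) (0, 0)
    simp only [zero_add] at this
    rw [← sub_eq_iff_eq_add']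
    exact this
  have hδadd : ∀ u v, δ (u + v) = δ u + δ v := by
    intro u v
    have h1 := hδ 0 u v
    simp only [δ] at h1 ⊢
    rw [h1]
    abel
  have hδ0 : δ 0 = 0 := by simp [δ]
  have hδcont : Continuous δ :=
    ((continuous_snd.comp (hc.comp (continuous_const.prodMk continuous_id)))).sub continuous_const
  let g : SS → (Option J → T) := fun s => (h (s, 0)).2
  have hg : Continuous g := continuous_snd.comp (hc.comp (continuous_id.prodMk continuous_const))
  have hstar : ∀ (n : ℤ) (s : SS),
      EE σ' n (s + a) = (g (s + n • rho) - g s) + δ (EE σ n s) := by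
    intro n s
    have h1 : (h (stp σ n (s, 0))).2 = g s + EE σ' n (s + a) := by
      rw [hpow, stp_snd, ha]
    have h2 : (h (stp σ n (s, 0))).2 = g (s + n • rho) + δ (EE σ n s) := by
      have : stp σ n ((s, 0) : ZZ J) = (s + n • rho, 0 + EE σ n s) := rfl
      rw [this, hδ]
    rw [h2] at h1
    rw [sub_add_eq_add_sub, h1]
    abel
  -- limits along the return times
  have hlim : ∀ (j : J) (s : ℕ → SS) (e : Option J → T),
      Tendsto (fun k => EE σ (ret (σ j).1 k) (s k)) atTop (𝓝 e) →
      Tendsto (fun k => EE σ' (ret (σ j).1 k) (s k + a)) atTop (𝓝 (δ e)) := by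
    intro j s e he
    have h1 := tendsto_sub_of_tendsto g hg s (fun k => ret (σ j).1 k • rho) (tendsto_ret _)
    have h2 := (hδcont.tendsto e).comp he
    have h3 := h1.add h2
    rw [zero_add] at h3
    refine h3.congr fun k => ?_
    rw [hstar]
    rfl
  have hnone : ∀ (n : ℤ) (s : SS), EE σ' n (s + a) none = EE σ n s none + n • a none := by
    intro n s
    rw [EE_none, EE_none, Pi.add_apply, smul_add]
    abel
  have hlim0 : ∀ (j : J) (s : ℕ → SS) (e : Option J → T) (u : T),
      Tendsto (fun k => EE σ (ret (σ j).1 k) (s k)) atTop (𝓝 e) →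
      (∀ k, EE σ (ret (σ j).1 k) (s k) none = u) →
      Tendsto (fun k => u + ret (σ j).1 k • a none) atTop (𝓝 (δ e none)) := by
    intro j s e u he hu
    have h1 := hlim j s e he
    rw [tendsto_pi_nhds] at h1
    refine (h1 none).congr fun k => ?_
    rw [hnone, hu]
  have hna : ∀ j, Tendsto (fun k => ret (σ j).1 k • a none) atTop (𝓝 0) := by
    intro j
    obtain ⟨s, hs1, hs2⟩ := exists_seq σ j (fun _ => ((1 / 2 : ℝ) : T)) 0
    have h1 := tendsto_EE σ hσ j s 0 0 hs2 (fun k => by rw [hs1, BB_half])
    have e0 : ((0 : ℝ) : T) = 0 := rfl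
    rw [e0, Pi.single_zero, Pi.single_zero, add_zero] at h1
    have h2 := hlim0 j s 0 0 h1 hs2
    rw [hδ0] at h2
    simpa using h2
  have hδnone : ∀ x, δ x none = x none := by
    let H : AddSubgroup (Option J → T) :=
      { carrier := {x | δ x none = x none}
        zero_mem' := by
          change δ 0 none = (0 : Option J → T) none
          rw [hδ0]
        add_mem' := by
          intro x y hx hy
          change δ (x + y) none = (x + y) none
          rw [hδadd, Pi.add_apply, Pi.add_apply, hx, hy]
        neg_mem' := by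
          intro x hx
          change δ (-x) none = (-x) none
          have h1 : δ (-x) = -δ x := by
            have := hδadd (-x) x
            rw [neg_add_cancel, hδ0] at this
            exact eq_neg_of_add_eq_zero_left this.symm
          rw [h1, Pi.neg_apply, Pi.neg_apply, hx] }
    have hH : IsClosed (H : Set (Option J → T)) := by
      have : Continuous fun x : Option J → T => δ x none := (continuous_apply none).comp hδcont
      exact isClosed_eq this (continuous_apply none)
    have key : ∀ (j : J) (θ : T) (u : T) (r : ℝ), BB θ = r →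
        δ (Pi.single none u + Pi.single (some j) (r : T)) none = u := by
      intro j θ u r hr
      obtain ⟨s, hs1, hs2⟩ := exists_seq σ j (fun _ => θ) u
      have h1 := tendsto_EE σ hσ j s u r hs2 (fun k => by rw [hs1, hr])
      have h2 := hlim0 j s _ u h1 hs2
      have h3 := (tendsto_const_nhds (x := u)).add (hna j)
      rw [add_zero] at h3
      exact tendsto_nhds_unique h2 h3
    refine mem_of_single_mem H hH ?_
    intro i x
    match i with
    | none =>
      obtain ⟨j⟩ := ‹Nonempty J›
      have h1 := key j _ x 0 BB_half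
      have e0 : ((0 : ℝ) : T) = 0 := rfl
      rw [e0, Pi.single_zero, add_zero] at h1
      change δ (Pi.single none x) none = (Pi.single none x : Option J → T) none
      rw [h1, Pi.single_eq_same]
    | some j =>
      refine single_mem_of_small H (some j) ?_ x
      intro r hr0 hr1
      have h1 := key j _ 0 (-r) (BB_neg hr0 hr1)
      rw [Pi.single_zero, zero_add] at h1
      change δ (Pi.single (some j) ((-r : ℝ) : T)) none =
        (Pi.single (some j) ((-r : ℝ) : T) : Option J → T) none
      rw [h1]
      simp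
  -- the homomorphism `γ`
  let g₀ : SS → T := fun s => g s none
  have hg₀ : Continuous g₀ := (continuous_apply none).comp hg
  have hstep : ∀ s, g₀ (s + rho) = g₀ s + a none := by
    intro s
    have h1 := congrFun (hstar 1 s) none
    rw [hnone, Pi.add_apply, hδnone, Pi.sub_apply, one_smul, one_smul] at h1
    have h2 : g₀ (s + rho) - g₀ s = a none := by
      have : EE σ 1 s none + a none = (g₀ (s + rho) - g₀ s) + EE σ 1 s none := h1
      rw [add_comm] at this
      exact (add_right_cancel this).symm
    rw [← h2]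
    abel
  have hγ : ∀ s r, g₀ (s + r) = g₀ s + (g₀ r - g₀ 0) := by
    intro s r
    have hcl : IsClosed {s | g₀ (s + r) - g₀ s = g₀ r - g₀ 0} :=
      isClosed_eq ((hg₀.comp (continuous_add_const r)).sub hg₀) continuous_const
    have hsub : (range fun n : ℤ => (0 : SS) + n • rho) ⊆
        {s | g₀ (s + r) - g₀ s = g₀ r - g₀ 0} := by
      have hn : ∀ n : ℤ, g₀ (n • rho + r) - g₀ (n • rho) = g₀ r - g₀ 0 := by
        intro n
        induction n with
        | zero => simp
        | succ n ih =>
          rw [← ih, add_smul, one_smul, hstep, add_right_comm, hstep]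
          abel
        | pred n ih =>
          rw [← ih]
          have e1 : (-(n : ℤ)) • rho = (-(n : ℤ) - 1) • rho + rho := by
            rw [sub_smul, one_smul, sub_add_cancel]
          have h1 : g₀ ((-(n : ℤ)) • rho) = g₀ ((-(n : ℤ) - 1) • rho) + a none := by
            rw [e1, hstep]
          have h2 : g₀ ((-(n : ℤ)) • rho + r) = g₀ ((-(n : ℤ) - 1) • rho + r) + a none := by
            rw [e1, add_right_comm, hstep]
          rw [h1, h2]
          abel
      rintro _ ⟨n, rfl⟩
      simp only [mem_ofPred_eq, zero_add]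
      exact hn n
    have := hcl.closure_subset_iff.2 hsub (dense_base 0 s)
    simp only [mem_ofPred_eq] at this
    rw [← this]
    abel
  let γ : SS →+ T :=
    { toFun := fun r => g₀ r - g₀ 0
      map_zero' := sub_self _
      map_add' := by
        intro r r'
        rw [hγ]
        abel }
  have hγcont : Continuous γ := hg₀.sub continuous_const
  have hγrho : γ rho = a none := by
    have := hstep 0
    rw [zero_add] at this
    change g₀ rho - g₀ 0 = a none
    rw [this]
    abel
  refine ⟨a, γ.comp (AddMonoidHom.single (fun _ => T) none), fun j => ?_⟩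
  -- the character values
  have hβ : Tendsto (fun k => chi (idx (σ j).1 k) a - ((σ' j).2 - (σ j).2)) atTop (𝓝 0) := by
    choose θ hθ1 hθ2 using exists_theta
    obtain ⟨s, hs1, hs2⟩ := exists_seq σ j
      (fun k => θ (chi (idx (σ j).1 k) a - ((σ' j).2 - (σ j).2))) 0
    have h1 := tendsto_EE σ hσ j s 0 0 hs2 (fun k => by rw [hs1, hθ1])
    have e0 : ((0 : ℝ) : T) = 0 := rfl
    rw [e0, Pi.single_zero, Pi.single_zero, add_zero] at h1
    have h2 := hlim j s 0 h1
    rw [hδ0, tendsto_pi_nhds] at h2
    have h3 := h2 (some j)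
    have h4 := tendsto_EE_self σ' j (fun k => s k + a)
    rw [hty j] at h4
    have h5 := h3.sub h4
    rw [Pi.zero_apply, sub_zero] at h5
    have h6 : Tendsto (fun k => ((BB (θ (chi (idx (σ j).1 k) a - ((σ' j).2 - (σ j).2)) +
        (chi (idx (σ j).1 k) a - ((σ' j).2 - (σ j).2))) : ℝ) : T)) atTop (𝓝 0) := by
      refine h5.congr fun k => ?_
      have e1 : chi (idx (σ j).1 k) (s k + a) - (σ' j).2 =
          θ (chi (idx (σ j).1 k) a - ((σ' j).2 - (σ j).2)) +
            (chi (idx (σ j).1 k) a - ((σ' j).2 - (σ j).2)) := by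
        rw [← hs1 k, map_add]
        abel
      rw [e1]
      abel
    rw [tendsto_zero_iff_norm_tendsto_zero] at h6 ⊢
    have h7 : Tendsto (fun k => min ‖chi (idx (σ j).1 k) a - ((σ' j).2 - (σ j).2)‖ (1 / 8))
        atTop (𝓝 0) := by
      refine squeeze_zero (fun k => le_min (norm_nonneg _) (by norm_num)) (fun k => ?_) h6
      rw [norm_coe_of_le ((abs_BB_le _).trans (by norm_num))]
      exact hθ2 _
    rw [Metric.tendsto_atTop] at h7 ⊢
    intro ε hε
    obtain ⟨K, hK⟩ := h7 (min ε (1 / 8)) (lt_min hε (by norm_num))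
    refine ⟨K, fun k hk => ?_⟩
    have h8 := hK k hk
    rw [Real.dist_eq, sub_zero] at h8 ⊢
    rw [abs_of_nonneg (le_min (norm_nonneg _) (by norm_num))] at h8
    rw [abs_of_nonneg (norm_nonneg _)]
    rcases min_lt_iff.1 h8 with h9 | h9
    · exact h9.trans_le (min_le_left _ _)
    · exact absurd h9 (not_lt.2 (min_le_right _ _))
  -- conclusion
  have hM := (hγcont.tendsto 0).comp (isData.tendsto_M.comp (tendsto_idx (σ j).1))
  rw [map_zero] at hM
  have h1 := (hβ.sub hM).add (tendsto_const_nhds (x := ((σ' j).2 - (σ j).2)))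
  rw [sub_zero, zero_add] at h1
  refine h1.congr fun k => ?_
  simp only [comp_apply]
  rw [chi_apply, phim_idx, map_add, map_nsmul, hγrho]
  change _ = phi (σ j).1 k a - γ (Pi.single none (phi (σ j).1 k rho))
  abel

end MP3166b2
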