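import Pool.Agent.Lib.MP_3166b2_lc.Code

/-!
# The main theorem
-/

namespace MP3166b2

open Set Function Topology TopologicalSpace MeasureTheory

theorem half_ne_zero' : ((1 / 2 : ℝ) : T) ≠ 0 := by
  intro h
  have h1 := norm_coe_of_le (r := 1 / 2) (by norm_num [abs_of_pos])
  rw [h, norm_zero] at h1
  norm_num [abs_of_pos] at h1

/-- The map sending a tree to the pair of the codes of the two systems attached to it. -/
noncomputable def codePair (p : List ℕ → Bool) : X × X :=
  ((treeSys p 0).codeX (treeSys_minimal p 0),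
    (treeSys p ((1 / 2 : ℝ) : T)).codeX (treeSys_minimal p _))

theorem continuous_codePair : Continuous codePair :=
  (Continuous.subtype_mk (continuous_code 0) _).prodMk
    (Continuous.subtype_mk (continuous_code ((1 / 2 : ℝ) : T)) _)

theorem main (d : MetricSpace Q)
    (hd : Compatible d) (B : Set (X × X)) (hB : IsBorel B) :
    ∃ (A A' : Sys) (hA : A.Minimal) (hA' : A'.Minimal), A.Distal d ∧ A'.Distal d ∧
      ¬ ((A.codeX hA, A'.codeX hA') ∈ B ↔ A.Conj A') := by
  by_contra hcon
  have hcon' : ∀ (A A' : Sys) (hA : A.Minimal) (hA' : A'.Minimal), A.Distal d → A'.Distal d →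
      ((A.codeX hA, A'.codeX hA') ∈ B ↔ A.Conj A') := by
    intro A A' hA hA' hD hD'
    by_contra h
    exact hcon ⟨A, A', hA, hA', hD, hD', h⟩
  have h1 : MeasurableSet[borel (List ℕ → Bool)] (codePair ⁻¹' B) :=
    continuous_codePair.borel_measurable hB
  have h2 : codePair ⁻¹' B = {p | Good p} := by
    ext p
    rw [mem_preimage]
    unfold codePair
    rw [hcon' _ _ _ _ (treeSys_distal p 0 d hd) (treeSys_distal p _ d hd),
      treeSys_conj p half_ne_zero']
    rfl
  rw [h2] at h1
  exact not_borel_good h1

end MP3166b2
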