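import Mathlib

/-!
# A rotation of a countable power of the circle with a dense forward orbit
-/

namespace MP3166b2

open Set Function Topology Filter

/-- The circle `ℝ / ℤ`. -/
abbrev T := UnitAddCircle

/-- Every element of the circle has a representative of absolute value at most `1/2`. -/
theorem exists_rep (x : T) : ∃ r : ℝ, (r : T) = x ∧ ‖x‖ = |r| ∧ |r| ≤ 1 / 2 := by
  induction x using QuotientAddGroup.induction_on with | H r => ?_
  refine ⟨r - round r, ?_, ?_, ?_⟩
  · have : ((r - round r : ℝ) : T) = (r : T) - ((round r : ℝ) : T) := by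
      rfl
    rw [this]
    have h2 : ((round r : ℝ) : T) = 0 := by
      rw [AddCircle.coe_eq_zero_iff]
      exact ⟨round r, by simp⟩
    rw [h2, sub_zero]
  · exact UnitAddCircle.norm_eq
  · exact abs_sub_round r

theorem norm_coe_of_le {r : ℝ} (h : |r| ≤ 1 / 2) : ‖(r : T)‖ = |r| := by
  have h1 := (AddCircle.norm_coe_eq_abs_iff (x := r) (1 : ℝ) one_ne_zero).2
  exact h1 (by simpa using h)

theorem norm_coe_le (r : ℝ) : ‖(r : T)‖ ≤ |r| := by
  rw [UnitAddCircle.norm_eq]
  have := round_le r 0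
  simpa using this

/-- Divisibility of the circle, with control. -/
theorem exists_div_near (x u : T) {n : ℕ} (hn : 1 ≤ n) :
    ∃ y : T, n • y = u ∧ ‖y - x‖ ≤ 1 / n := by
  obtain ⟨r, hr, -, hr2⟩ := exists_rep (u - n • x)
  have hn0 : (n : ℝ) ≠ 0 := by positivity
  refine ⟨x + ((r / n : ℝ) : T), ?_, ?_⟩
  · rw [smul_add, ← AddCircle.coe_nsmul, nsmul_eq_mul, mul_div_cancel₀ _ hn0, hr]
    abel
  · rw [add_sub_cancel_left]
    refine (norm_coe_le _).trans ?_
    rw [abs_div, Nat.abs_cast]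
    gcongr
    linarith

theorem exists_div (u : T) {n : ℕ} (hn : 1 ≤ n) : ∃ y : T, n • y = u := by
  obtain ⟨y, hy, -⟩ := exists_div_near 0 u hn
  exact ⟨y, hy⟩

variable {ι : Type*} [Countable ι]

/-- There is an element of `ι → T` whose multiples meet every nonempty open set. -/
theorem exists_dense_mult : ∃ ρ : ι → T, ∀ U : Set (ι → T), IsOpen U → U.Nonempty →
    ∃ n : ℕ, n • ρ ∈ U := by
  classical
  let 𝓑 := TopologicalSpace.countableBasis (ι → T)
  have h𝓑 := TopologicalSpace.isBasis_countableBasis (ι → T)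
  have h𝓑c : 𝓑.Countable := TopologicalSpace.countable_countableBasis _
  let O : Set (ι → T) → Set (ι → T) := fun U => ⋃ n : ℕ, {ρ | n • ρ ∈ U}
  have hOopen : ∀ U ∈ 𝓑, IsOpen (O U) := by
    intro U hU
    refine isOpen_iUnion fun n => ?_
    exact (h𝓑.isOpen hU).preimage (continuous_const_smul n)
  have hOdense : ∀ U ∈ 𝓑, Dense (O U) := by
    intro U hU
    have hne : U.Nonempty := TopologicalSpace.nonempty_of_mem_countableBasis hU
    obtain ⟨u, hu⟩ := hne
    intro x
    rw [mem_closure_iff_nhds]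
    intro V hV
    have : ∀ n : ℕ, ∃ y : ι → T, (n + 1) • y = u ∧ ∀ i, ‖y i - x i‖ ≤ 1 / ((n : ℝ) + 1) := by
      intro n
      have := fun i => exists_div_near (x i) (u i) (n := n + 1) (by omega)
      choose y hy1 hy2 using this
      refine ⟨y, funext hy1, fun i => ?_⟩
      simpa using hy2 i
    choose y hy1 hy2 using this
    have hlim : Tendsto y atTop (𝓝 x) := by
      rw [tendsto_pi_nhds]
      intro i
      rw [tendsto_iff_norm_sub_tendsto_zero]
      exact squeeze_zero (fun n => norm_nonneg _) (fun n => hy2 n i)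
        tendsto_one_div_add_atTop_nhds_zero_nat
    obtain ⟨n, hn⟩ := (hlim.eventually_mem hV).exists
    refine ⟨y n, hn, ?_⟩
    simp only [O, mem_iUnion]
    exact ⟨n + 1, by simpa [hy1 n] using hu⟩
  have hdense : Dense (⋂ U ∈ 𝓑, O U) := by
    exact dense_biInter_of_isOpen hOopen h𝓑c hOdense
  obtain ⟨ρ, hρ⟩ := hdense.nonempty
  refine ⟨ρ, fun U hU hne => ?_⟩
  obtain ⟨x, hx⟩ := hne
  obtain ⟨V, hV, hxV, hVU⟩ := h𝓑.exists_subset_of_mem_open hx hU
  have := mem_iInter₂.1 hρ V hV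
  simp only [O, mem_iUnion] at this
  obtain ⟨n, hn⟩ := this
  exact ⟨n, hVU hn⟩

/-- The multiples of `ρ` meet every nonempty open set. -/
def FwdDense (ρ : ι → T) : Prop :=
  ∀ U : Set (ι → T), IsOpen U → U.Nonempty → ∃ n : ℕ, n • ρ ∈ U

omit [Countable ι] in
theorem FwdDense.exists_ge {ρ : ι → T} (h : FwdDense ρ) (n₀ : ℕ) {U : Set (ι → T)} (hU : IsOpen U)
    (hne : U.Nonempty) : ∃ n : ℕ, n₀ ≤ n ∧ n • ρ ∈ U := by
  have hU' : IsOpen ((fun x => n₀ • ρ + x) ⁻¹' U) := hU.preimage (continuous_const_add _)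
  obtain ⟨u, hu⟩ := hne
  obtain ⟨n, hn⟩ := h _ hU' ⟨-(n₀ • ρ) + u, by simpa using hu⟩
  refine ⟨n₀ + n, by omega, ?_⟩
  rw [add_smul]
  exact hn

end MP3166b2
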