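import Pool.Agent.Lib.MP_3166b2_lc.Coc

/-!
# The skew products: minimality and distality
-/

namespace MP3166b2

open Set Function Topology Filter

/-- `n (n - 1) / 2`. -/
def tri (n : ℤ) : ℤ := n * (n - 1) / 2

theorem two_mul_tri (n : ℤ) : 2 * tri n = n * (n - 1) :=
  Int.mul_ediv_cancel' (Int.even_mul_pred_self n).two_dvd

theorem tri_add (m n : ℤ) : tri (m + n) = tri m + tri n + m * n := by
  have h1 := two_mul_tri m
  have h2 := two_mul_tri n
  have h3 := two_mul_tri (m + n)
  have : 2 * tri (m + n) = 2 * (tri m + tri n + m * n) := by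
    rw [h3, mul_add, mul_add, h1, h2]
    ring
  omega

theorem tri_one : tri 1 = 0 := by simp [tri]

theorem tri_zero : tri 0 = 0 := by simp [tri]

variable {J : Type*}

/-- The cocycle with values in the torus `Option J → T`. -/
noncomputable def EE (σ : J → Ty × T) (n : ℤ) (s : SS) : Option J → T
  | none => n • s none + tri n • rho none
  | some j => ((GG (σ j).1 (σ j).2 n s : ℝ) : T)

theorem EE_none (σ : J → Ty × T) (n : ℤ) (s : SS) :
    EE σ n s none = n • s none + tri n • rho none := rfl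

theorem EE_some (σ : J → Ty × T) (n : ℤ) (s : SS) (j : J) :
    EE σ n s (some j) = ((GG (σ j).1 (σ j).2 n s : ℝ) : T) := rfl

theorem EE_add (σ : J → Ty × T) (m n : ℤ) (s : SS) :
    EE σ (m + n) s = EE σ m s + EE σ n (s + m • rho) := by
  funext i
  match i with
  | none =>
    rw [Pi.add_apply, EE_none, EE_none, EE_none, tri_add, Pi.add_apply, Pi.smul_apply]
    simp only [add_smul, smul_add, mul_smul]
    rw [smul_comm m n]
    abel
  | some j =>
    rw [Pi.add_apply, EE_some, EE_some, EE_some, GG_add]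
    rfl

theorem EE_zero (σ : J → Ty × T) (s : SS) : EE σ 0 s = 0 := by
  have := EE_add σ 0 0 s
  simpa using this

theorem continuous_coe_T : Continuous fun r : ℝ => (r : T) := AddCircle.continuous_mk' 1

theorem continuous_EE (σ : J → Ty × T) (n : ℤ) : Continuous (EE σ n) := by
  refine continuous_pi fun i => ?_
  match i with
  | none =>
    simp only [EE_none]
    have h : Continuous fun s : SS => s none := continuous_apply none
    exact ((continuous_zsmul n).comp h).add continuous_const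
  | some j =>
    simp only [EE_some]
    exact continuous_coe_T.comp (continuous_GG _ _ _)

/-- The phase space. -/
abbrev ZZ (J : Type*) := SS × (Option J → T)

/-- The action of the integer `n` on the phase space. -/
noncomputable def stp (σ : J → Ty × T) (n : ℤ) (z : ZZ J) : ZZ J :=
  (z.1 + n • rho, z.2 + EE σ n z.1)

theorem stp_fst (σ : J → Ty × T) (n : ℤ) (z : ZZ J) : (stp σ n z).1 = z.1 + n • rho := rfl

theorem stp_snd (σ : J → Ty × T) (n : ℤ) (z : ZZ J) : (stp σ n z).2 = z.2 + EE σ n z.1 := rfl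

theorem stp_stp (σ : J → Ty × T) (m n : ℤ) (z : ZZ J) :
    stp σ n (stp σ m z) = stp σ (m + n) z := by
  unfold stp
  rw [EE_add, add_smul]
  simp only [add_assoc]

theorem stp_zero (σ : J → Ty × T) (z : ZZ J) : stp σ 0 z = z := by
  unfold stp
  rw [EE_zero, zero_smul, add_zero, add_zero]

theorem continuous_stp (σ : J → Ty × T) (n : ℤ) : Continuous (stp σ n) := by
  unfold stp
  exact (continuous_fst.add continuous_const).prodMk
    (continuous_snd.add ((continuous_EE σ n).comp continuous_fst))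

theorem stp_translate (σ : J → Ty × T) (n : ℤ) (s : SS) (k e : Option J → T) :
    stp σ n (s, k + e) = ((stp σ n (s, k)).1, (stp σ n (s, k)).2 + e) := by
  unfold stp
  simp only [Prod.mk.injEq, true_and]
  abel

/-- The skew product homeomorphism. -/
noncomputable def TT (σ : J → Ty × T) : ZZ J ≃ₜ ZZ J where
  toFun := stp σ 1
  invFun := stp σ (-1)
  left_inv z := by rw [stp_stp]; simpa using stp_zero σ z
  right_inv z := by rw [stp_stp]; simpa using stp_zero σ z
  continuous_toFun := continuous_stp σ 1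
  continuous_invFun := continuous_stp σ (-1)

theorem TT_apply (σ : J → Ty × T) (z : ZZ J) : TT σ z = stp σ 1 z := rfl

theorem TT_inv_apply (σ : J → Ty × T) (z : ZZ J) : (TT σ)⁻¹ z = stp σ (-1) z := rfl

theorem TT_zpow (σ : J → Ty × T) (n : ℤ) (z : ZZ J) : (TT σ ^ n) z = stp σ n z := by
  induction n generalizing z with
  | zero => rw [zpow_zero, Homeomorph.one_apply, stp_zero]
  | succ n ih =>
    rw [zpow_add_one, Homeomorph.mul_apply, ih, TT_apply, stp_stp, add_comm]
  | pred n ih =>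
    rw [zpow_sub_one, Homeomorph.mul_apply, ih, TT_inv_apply, stp_stp]
    congr 1
    ring

/-! ### Distality -/

theorem stp_distal (σ : J → Ty × T) {z z' : ZZ J} (h : z ≠ z') :
    ∃ C : Set (ZZ J × ZZ J), IsClosed C ∧ (∀ n, (stp σ n z, stp σ n z') ∈ C) ∧
      ∀ x, (x, x) ∉ C := by
  by_cases h1 : z.1 = z'.1
  · have h2 : z.2 ≠ z'.2 := fun h2 => h (Prod.ext h1 h2)
    refine ⟨{q | q.1.2 - q.2.2 = z.2 - z'.2}, ?_, ?_, ?_⟩
    · exact isClosed_eq ((continuous_snd.comp continuous_fst).sub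
        (continuous_snd.comp continuous_snd)) continuous_const
    · intro n
      simp only [mem_ofPred_eq, stp_snd, h1]
      abel
    · intro x hx
      simp only [mem_ofPred_eq, sub_self] at hx
      exact h2 (sub_eq_zero.1 hx.symm)
  · refine ⟨{q | q.1.1 - q.2.1 = z.1 - z'.1}, ?_, ?_, ?_⟩
    · exact isClosed_eq ((continuous_fst.comp continuous_fst).sub
        (continuous_fst.comp continuous_snd)) continuous_const
    · intro n
      simp only [mem_ofPred_eq, stp_fst]
      abel
    · intro x hx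
      simp only [mem_ofPred_eq, sub_self] at hx
      exact h1 (sub_eq_zero.1 hx.symm)

/-! ### Behaviour at the return times -/

/-- The return times attached to a type. -/
noncomputable def ret (ty : Ty) (k : ℕ) : ℤ := (NN (idx ty k) : ℤ)

theorem tendsto_ret (ty : Ty) : Tendsto (fun k => ret ty k • rho) atTop (𝓝 0) := by
  have := isData.tendsto_N.comp (tendsto_idx ty)
  refine this.congr fun k => ?_
  simp only [comp_apply, ret, natCast_zsmul]

theorem tendsto_half_idx (ty : Ty) (C : ℝ) :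
    Tendsto (fun k => C * (1 / 2 : ℝ) ^ idx ty k) atTop (𝓝 0) := by
  have h := (tendsto_pow_atTop_nhds_zero_of_lt_one (r := (1 / 2 : ℝ)) (by norm_num)
    (by norm_num)).comp (tendsto_idx ty)
  simpa using h.const_mul C

theorem tendsto_EE_self (σ : J → Ty × T) (j : J) (s : ℕ → SS) :
    Tendsto (fun k => EE σ (ret (σ j).1 k) (s k) (some j) -
      ((BB (chi (idx (σ j).1 k) (s k) - (σ j).2) : ℝ) : T)) atTop (𝓝 0) := by
  rw [tendsto_zero_iff_norm_tendsto_zero]
  refine squeeze_zero (fun _ => norm_nonneg _) (fun k => ?_) (tendsto_half_idx (σ j).1 3)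
  rw [EE_some]
  have e : ((GG (σ j).1 (σ j).2 (ret (σ j).1 k) (s k) : ℝ) : T) -
      ((BB (chi (idx (σ j).1 k) (s k) - (σ j).2) : ℝ) : T) =
      ((GG (σ j).1 (σ j).2 (ret (σ j).1 k) (s k) -
        BB (chi (idx (σ j).1 k) (s k) - (σ j).2) : ℝ) : T) := rfl
  rw [e]
  exact (norm_coe_le _).trans (GG_estimate_self _ _ _ _)

theorem tendsto_EE_ne (σ : J → Ty × T) (hσ : Injective fun j => (σ j).1) {j j' : J} (hj : j' ≠ j)
    (s : ℕ → SS) :
    Tendsto (fun k => EE σ (ret (σ j).1 k) (s k) (some j')) atTop (𝓝 0) := by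
  rw [tendsto_zero_iff_norm_tendsto_zero]
  refine squeeze_zero (fun _ => norm_nonneg _) (fun k => ?_) (tendsto_half_idx (σ j).1 2)
  rw [EE_some]
  refine (norm_coe_le _).trans (GG_estimate_ne _ _ _ ?_ _)
  intro k' hk'
  exact hj (hσ (idx_inj hk').1)

theorem tendsto_EE [DecidableEq J] (σ : J → Ty × T) (hσ : Injective fun j => (σ j).1) (j : J)
    (s : ℕ → SS) (u : T) (r : ℝ)
    (h0 : ∀ k, EE σ (ret (σ j).1 k) (s k) none = u)
    (h1 : ∀ k, BB (chi (idx (σ j).1 k) (s k) - (σ j).2) = r) :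
    Tendsto (fun k => EE σ (ret (σ j).1 k) (s k)) atTop
      (𝓝 (Pi.single none u + Pi.single (some j) (r : T))) := by
  rw [tendsto_pi_nhds]
  intro i
  match i with
  | none =>
    refine tendsto_const_nhds.congr fun k => ?_
    rw [h0 k]
    simp
  | some j' =>
    by_cases hj : j' = j
    · subst hj
      have h := tendsto_EE_self σ j' s
      simp only [h1] at h
      have h2 := h.add (tendsto_const_nhds (x := (r : T)))
      simpa using h2
    · have h := tendsto_EE_ne σ hσ hj s
      simpa [hj] using h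

theorem exists_seq (σ : J → Ty × T) (j : J) (θ : ℕ → T) (u : T) :
    ∃ s : ℕ → SS, (∀ k, chi (idx (σ j).1 k) (s k) - (σ j).2 = θ k) ∧
      ∀ k, EE σ (ret (σ j).1 k) (s k) none = u := by
  have : ∀ k, ∃ s : SS, chi (idx (σ j).1 k) s - (σ j).2 = θ k ∧
      EE σ (ret (σ j).1 k) s none = u := by
    intro k
    obtain ⟨y, hy⟩ := exists_div (u - tri (ret (σ j).1 k) • rho none) (isData.N_pos (idx (σ j).1 k))
    obtain ⟨s, hs1, hs2⟩ := exists_chi_eq (σ j).1 k y (θ k + (σ j).2)
    refine ⟨s, by rw [hs2, add_sub_cancel_right], ?_⟩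
    rw [EE_none, hs1]
    have : ret (σ j).1 k • y = NN (idx (σ j).1 k) • y := natCast_zsmul _ _
    rw [this, hy, sub_add_cancel]
  choose s hs1 hs2 using this
  exact ⟨s, hs1, hs2⟩

/-! ### Values of the bump increment -/

theorem BB_half : BB ((1 / 2 : ℝ) : T) = 0 := by
  unfold BB
  have e : ((1 / 2 : ℝ) : T) + ((1 / 4 : ℝ) : T) = ((-1 / 4 : ℝ) : T) := by
    have h1 : ((1 / 2 : ℝ) : T) + ((1 / 4 : ℝ) : T) = ((1 / 2 + 1 / 4 : ℝ) : T) := rfl
    rw [h1]
    have h2 : (1 / 2 + 1 / 4 : ℝ) = -1 / 4 + 1 := by norm_num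
    rw [h2]
    exact AddCircle.coe_add_period 1 _
  rw [e, Psi_eq_zero, Psi_eq_zero, sub_zero]
  · rw [norm_coe_of_le] <;> norm_num [abs_of_pos]
  · rw [norm_coe_of_le] <;> norm_num [abs_of_neg]

theorem BB_neg {r : ℝ} (h0 : 0 ≤ r) (h1 : r ≤ 1 / 8) : BB ((1 / 8 - r : ℝ) : T) = -r := by
  unfold BB
  have e : ((1 / 8 - r : ℝ) : T) + ((1 / 4 : ℝ) : T) = ((1 / 8 - r + 1 / 4 : ℝ) : T) := rfl
  have a1 : |1 / 8 - r + 1 / 4| = 1 / 8 - r + 1 / 4 := abs_of_nonneg (by linarith)
  have a2 : |1 / 8 - r| = 1 / 8 - r := abs_of_nonneg (by linarith)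
  rw [e, Psi_eq_zero, Psi_eq]
  · rw [norm_coe_of_le] <;> rw [a2] <;> linarith
  · rw [norm_coe_of_le] <;> rw [a2] <;> linarith
  · rw [norm_coe_of_le] <;> rw [a1] <;> linarith

/-! ### Closed subgroups -/

theorem mem_of_single_mem {I : Type*} [DecidableEq I] (H : AddSubgroup (I → T))
    (hc : IsClosed (H : Set (I → T))) (h : ∀ i x, Pi.single i x ∈ H) (x : I → T) : x ∈ H := by
  have hs : HasSum (fun i => (Pi.single i (x i) : I → T)) x := by
    rw [Pi.hasSum]
    intro i
    have := hasSum_single (f := fun i' => (Pi.single i' (x i') : I → T) i) i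
      (fun i' hi' => Pi.single_eq_of_ne hi'.symm _)
    simpa using this
  exact hc.mem_of_tendsto hs (Eventually.of_forall fun F => H.sum_mem fun i _ => h i _)

theorem single_mem_of_small {I : Type*} [DecidableEq I] (H : AddSubgroup (I → T)) (i : I)
    (h : ∀ r : ℝ, 0 ≤ r → r ≤ 1 / 8 → (Pi.single i ((-r : ℝ) : T) : I → T) ∈ H) (x : T) :
    (Pi.single i x : I → T) ∈ H := by
  obtain ⟨r, hr, -, hr2⟩ := exists_rep x
  have h1 := h (|r| / 8) (by positivity) (by linarith)
  have h2 : (Pi.single i (((8 : ℕ) • (-(|r| / 8)) : ℝ) : T) : I → T) ∈ H := by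
    have h3 := H.nsmul_mem h1 8
    rw [← Pi.single_smul] at h3
    exact h3
  have h4 : ((8 : ℕ) • (-(|r| / 8)) : ℝ) = -|r| := by
    rw [nsmul_eq_mul]; push_cast; ring
  rw [h4] at h2
  rcases abs_cases r with ⟨h5, -⟩ | ⟨h5, -⟩
  · have h6 := H.neg_mem h2
    rw [← Pi.single_neg, h5] at h6
    have h7 : -((-r : ℝ) : T) = x := by
      rw [← hr]
      exact neg_neg (r : T)
    rwa [h7] at h6
  · rw [h5, neg_neg, hr] at h2
    exact h2

/-! ### Minimality -/

theorem dense_base (s : SS) : Dense (range fun n : ℤ => s + n • rho) := by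
  rw [dense_iff_inter_open]
  rintro U hU ⟨u, hu⟩
  have hU' : IsOpen ((fun x => s + x) ⁻¹' U) := hU.preimage (continuous_const_add _)
  obtain ⟨n, hn⟩ := isData.dense _ hU' ⟨-s + u, by simpa using hu⟩
  refine ⟨s + (n : ℤ) • rho, ?_, ⟨n, rfl⟩⟩
  rw [natCast_zsmul]
  exact hn

theorem stp_minimal [Countable J] [Nonempty J] (σ : J → Ty × T)
    (hσ : Injective fun j => (σ j).1) (z₀ : ZZ J) :
    Dense (range fun n : ℤ => stp σ n z₀) := by
  classical
  let C₀ : Set (ZZ J) := closure (range fun n : ℤ => stp σ n z₀)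
  let F : Set (Set (ZZ J)) := {M | IsClosed M ∧ M.Nonempty ∧ ∀ n, ∀ z ∈ M, stp σ n z ∈ M}
  have hC₀ : C₀ ∈ F := by
    refine ⟨isClosed_closure, ⟨_, subset_closure ⟨0, rfl⟩⟩, ?_⟩
    intro n z hz
    refine map_mem_closure (continuous_stp σ n) hz ?_
    rintro _ ⟨m, rfl⟩
    exact ⟨m + n, (stp_stp σ m n z₀).symm⟩
  obtain ⟨M, hMC, hM⟩ : ∃ M, M ⊆ C₀ ∧ Minimal (· ∈ F) M := by
    refine zorn_superset_nonempty F ?_ C₀ hC₀
    intro c hcF hchain hcne
    refine ⟨⋂₀ c, ⟨isClosed_sInter fun M hM => (hcF hM).1, ?_, ?_⟩, fun M hM =>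
      sInter_subset_of_mem hM⟩
    · have : Nonempty c := hcne.to_subtype
      rw [sInter_eq_iInter]
      refine IsCompact.nonempty_iInter_of_directed_nonempty_isCompact_isClosed _ ?_
        (fun M => (hcF M.2).2.1) (fun M => (hcF M.2).1.isCompact) (fun M => (hcF M.2).1)
      intro A B
      rcases hchain.total A.2 B.2 with h | h
      · exact ⟨A, Subset.rfl, h⟩
      · exact ⟨B, h, Subset.rfl⟩
    · intro n z hz M hM
      exact (hcF hM).2.2 n z (hz M hM)
  obtain ⟨hMcl, hMne, hMinv⟩ := hM.1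
  -- translations
  have hA : ∀ e : Option J → T, (∃ x ∈ M, (x.1, x.2 + e) ∈ M) → ∀ x ∈ M, (x.1, x.2 + e) ∈ M := by
    rintro e ⟨x₀, hx₀, hx₀'⟩ x hx
    have hM' : M ∩ (fun x : ZZ J => ((x.1, x.2 + e) : ZZ J)) ⁻¹' M ∈ F := by
      refine ⟨hMcl.inter (hMcl.preimage ?_), ⟨x₀, hx₀, hx₀'⟩, ?_⟩
      · exact continuous_fst.prodMk (continuous_snd.add continuous_const)
      · intro n z hz
        refine ⟨hMinv n z hz.1, ?_⟩
        have := hMinv n _ hz.2
        simp only at this
        rw [stp_translate] at this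
        exact this
    have := hM.2 hM' inter_subset_left hx
    exact this.2
  let H : AddSubgroup (Option J → T) :=
    { carrier := {e | ∀ x ∈ M, ((x.1, x.2 + e) : ZZ J) ∈ M}
      zero_mem' := fun x hx => by simpa using hx
      add_mem' := by
        intro a b ha hb x hx
        have := hb _ (ha x hx)
        simpa [add_assoc] using this
      neg_mem' := by
        intro a ha
        obtain ⟨x, hx⟩ := hMne
        refine hA _ ⟨(x.1, x.2 + a), ha x hx, ?_⟩
        simpa using hx }
  have hHcl : IsClosed (H : Set (Option J → T)) := by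
    have : (H : Set (Option J → T)) =
        ⋂ x ∈ M, (fun e : Option J → T => ((x.1, x.2 + e) : ZZ J)) ⁻¹' M := by
      ext e
      simp only [mem_iInter, mem_preimage]
      rfl
    rw [this]
    refine isClosed_biInter fun x _ => hMcl.preimage ?_
    exact continuous_const.prodMk (continuous_const.add continuous_id)
  have hproj : ∀ s : SS, ∃ κ, ((s, κ) : ZZ J) ∈ M := by
    obtain ⟨x, hx⟩ := hMne
    have hcl : IsClosed (Prod.fst '' M) := (hMcl.isCompact.image continuous_fst).isClosed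
    have hsub : (range fun n : ℤ => x.1 + n • rho) ⊆ Prod.fst '' M := by
      rintro _ ⟨n, rfl⟩
      exact ⟨stp σ n x, hMinv n x hx, rfl⟩
    have huniv : Prod.fst '' M = univ := by
      rw [eq_univ_iff_forall]
      intro s
      exact hcl.closure_subset_iff.2 hsub (dense_base x.1 s)
    intro s
    have hs : s ∈ Prod.fst '' M := by rw [huniv]; trivial
    obtain ⟨⟨s', κ⟩, hκ, rfl⟩ := hs
    exact ⟨κ, hκ⟩
  have hess : ∀ (n : ℕ → ℤ) (s : ℕ → SS) (e : Option J → T),
      Tendsto (fun k => n k • rho) atTop (𝓝 0) →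
      Tendsto (fun k => EE σ (n k) (s k)) atTop (𝓝 e) → e ∈ H := by
    intro n s e hn he
    choose κ hκ using hproj
    obtain ⟨z, hz, φ, hφ, hlim⟩ := hMcl.isCompact.tendsto_subseq (x := fun k => (s k, κ (s k)))
      (fun k => hκ (s k))
    refine hA e ⟨z, hz, ?_⟩
    have h1 : Tendsto (fun k => s (φ k)) atTop (𝓝 z.1) := (continuous_fst.tendsto z).comp hlim
    have h2 : Tendsto (fun k => κ (s (φ k))) atTop (𝓝 z.2) := (continuous_snd.tendsto z).comp hlim
    have h3 := h1.add (hn.comp hφ.tendsto_atTop)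
    have h4 := h2.add (he.comp hφ.tendsto_atTop)
    have h5 := h3.prodMk_nhds h4
    rw [add_zero] at h5
    refine hMcl.mem_of_tendsto h5 (Eventually.of_forall fun k => ?_)
    exact hMinv (n (φ k)) _ (hκ (s (φ k)))
  have hHtop : ∀ e, e ∈ H := by
    refine mem_of_single_mem H hHcl ?_
    intro i x
    match i with
    | none =>
      obtain ⟨j⟩ := ‹Nonempty J›
      obtain ⟨s, hs1, hs2⟩ := exists_seq σ j (fun _ => ((1 / 2 : ℝ) : T)) x
      have := tendsto_EE σ hσ j s x 0 hs2 (fun k => by rw [hs1, BB_half])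
      have h := hess _ _ _ (tendsto_ret _) this
      have e0 : ((0 : ℝ) : T) = 0 := rfl
      rwa [e0, Pi.single_zero, add_zero] at h
    | some j =>
      refine single_mem_of_small H (some j) ?_ x
      intro r hr0 hr1
      obtain ⟨s, hs1, hs2⟩ := exists_seq σ j (fun _ => ((1 / 8 - r : ℝ) : T)) 0
      have := tendsto_EE σ hσ j s 0 (-r) hs2 (fun k => by rw [hs1, BB_neg hr0 hr1])
      have h := hess _ _ _ (tendsto_ret _) this
      rwa [Pi.single_zero, zero_add] at h
  intro z
  obtain ⟨κ, hκ⟩ := hproj z.1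
  have := hHtop (z.2 - κ) _ hκ
  simp only [add_sub_cancel] at this
  exact hMC this

end MP3166b2
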